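import Mathlib

/-!
# Bounds polynomial in a scale function
-/

namespace Pool.Agent.H88.BB

/-- `(log₂ n)^k + k`. -/
def pl (k n : ℕ) : ℕ := (Nat.log 2 n) ^ k + k

/-- `f` is bounded by a polynomial in the scale `l`. -/
def Bd {ι : Type*} (l f : ι → ℕ) : Prop := ∃ c, ∀ i, f i ≤ (l i + 2) ^ c

variable {ι : Type*} {l f g : ι → ℕ}

theorem Bd.mono (hf : Bd l f) (h : ∀ i, g i ≤ f i) : Bd l g := by
  obtain ⟨c, hc⟩ := hf
  exact ⟨c, fun i => (h i).trans (hc i)⟩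

theorem Bd.const (l : ι → ℕ) (a : ℕ) : Bd l (fun _ => a) := by
  refine ⟨a, fun i => ?_⟩
  calc a ≤ 2 ^ a := Nat.lt_two_pow_self.le
    _ ≤ (l i + 2) ^ a := Nat.pow_le_pow_left (by omega) _

theorem Bd.self (l : ι → ℕ) : Bd l l := ⟨1, fun i => by simp⟩

theorem pow_le_pow_max (a b c : ℕ) : (a + 2) ^ b ≤ (a + 2) ^ max b c :=
  Nat.pow_le_pow_right (by omega) (le_max_left _ _)

theorem Bd.add (hf : Bd l f) (hg : Bd l g) : Bd l (fun i => f i + g i) := by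
  obtain ⟨c, hc⟩ := hf
  obtain ⟨d, hd⟩ := hg
  refine ⟨max c d + 1, fun i => ?_⟩
  have h1 := (hc i).trans (pow_le_pow_max (l i) c d)
  have h2 := (hd i).trans (pow_le_pow_max (l i) d c)
  rw [max_comm d c] at h2
  rw [pow_succ]
  nlinarith [Nat.one_le_pow (max c d) (l i + 2) (by omega)]

theorem Bd.mul (hf : Bd l f) (hg : Bd l g) : Bd l (fun i => f i * g i) := by
  obtain ⟨c, hc⟩ := hf
  obtain ⟨d, hd⟩ := hg
  refine ⟨c + d, fun i => ?_⟩
  rw [pow_add]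
  exact Nat.mul_le_mul (hc i) (hd i)

theorem Bd.pow (hf : Bd l f) (k : ℕ) : Bd l (fun i => f i ^ k) := by
  obtain ⟨c, hc⟩ := hf
  refine ⟨c * k, fun i => ?_⟩
  rw [pow_mul]
  exact Nat.pow_le_pow_left (hc i) k

theorem Bd.add_const (hf : Bd l f) (a : ℕ) : Bd l (fun i => f i + a) := hf.add (Bd.const l a)

theorem Bd.trans {l' : ι → ℕ} (hf : Bd l f) (hl : Bd l' l) : Bd l' f := by
  obtain ⟨c, hc⟩ := hf
  obtain ⟨d, hd⟩ := (hl.add_const 2).pow c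
  exact ⟨d, fun i => (hc i).trans (hd i)⟩

theorem Bd.comp {κ : Type*} (hf : Bd l f) (u : κ → ι) : Bd (fun i => l (u i)) (fun i => f (u i)) := by
  obtain ⟨c, hc⟩ := hf
  exact ⟨c, fun i => hc (u i)⟩

theorem log_le_of_le {a b : ℕ} (h : a ≤ 2 ^ b) : Nat.log 2 a ≤ b := by
  calc Nat.log 2 a ≤ Nat.log 2 (2 ^ b) := Nat.log_mono_right h
    _ = b := Nat.log_pow (by norm_num) b

theorem Bd.log (hf : Bd l f) (h : ∀ i, g i ≤ 2 ^ f i) : Bd l (fun i => Nat.log 2 (g i)) :=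
  hf.mono fun i => log_le_of_le (h i)

theorem Bd.pl (k : ℕ) (hg : Bd l (fun i => Nat.log 2 (g i))) : Bd l (fun i => pl k (g i)) :=
  (hg.pow k).add_const k

theorem Bd.pl_self (k : ℕ) : Bd (fun n : ℕ => Nat.log 2 n) (fun n => Pool.Agent.H88.BB.pl k n) :=
  Bd.pl k (Bd.self _)

theorem pl_mono_right {a b : ℕ} (k : ℕ) (h : a ≤ b) : pl k a ≤ pl k b := by
  unfold Pool.Agent.H88.BB.pl
  exact Nat.add_le_add_right (Nat.pow_le_pow_left (Nat.log_mono_right h) k) k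

theorem le_three_pow (c : ℕ) : 2 * c ≤ 3 ^ c := by
  induction c with
  | zero => simp
  | succ c ih =>
    rw [pow_succ]
    rcases Nat.eq_zero_or_pos c with rfl | h
    · norm_num
    · omega

theorem pow_le_pl (c n : ℕ) : (Nat.log 2 n + 2) ^ c ≤ pl (3 ^ c) n := by
  unfold pl
  set L := Nat.log 2 n
  rcases Nat.lt_or_ge L 2 with h | h
  · calc (L + 2) ^ c ≤ 3 ^ c := Nat.pow_le_pow_left (by omega) c
      _ ≤ L ^ 3 ^ c + 3 ^ c := Nat.le_add_left _ _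
  · have h1 : L + 2 ≤ L ^ 2 := by nlinarith
    calc (L + 2) ^ c ≤ (L ^ 2) ^ c := Nat.pow_le_pow_left h1 c
      _ = L ^ (2 * c) := by rw [pow_mul]
      _ ≤ L ^ 3 ^ c := Nat.pow_le_pow_right (by omega) (le_three_pow c)
      _ ≤ L ^ 3 ^ c + 3 ^ c := Nat.le_add_right _ _

theorem Bd.exists_pl {f : ℕ → ℕ} (hf : Bd (fun n => Nat.log 2 n) f) : ∃ k, ∀ n, f n ≤ Pool.Agent.H88.BB.pl k n := by
  obtain ⟨c, hc⟩ := hf
  exact ⟨3 ^ c, fun n => (hc n).trans (pow_le_pl c n)⟩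

theorem pl_mono_left {k k' : ℕ} (h : k ≤ k') (n : ℕ) : pl k n ≤ pl k' n := by
  unfold pl
  rcases Nat.eq_zero_or_pos (Nat.log 2 n) with h0 | h0
  · rw [h0]
    rcases Nat.eq_zero_or_pos k with rfl | hk
    · rcases Nat.eq_zero_or_pos k' with rfl | hk'
      · exact le_refl _
      · rw [pow_zero, zero_pow (show k' ≠ 0 by omega)]; omega
    · rw [zero_pow (show k ≠ 0 by omega), zero_pow (show k' ≠ 0 by omega)]; omega
  · exact Nat.add_le_add (Nat.pow_le_pow_right h0 h) h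

/-- Two bounds at once. -/
theorem exists_common {k k' : ℕ} {f g : ℕ → ℕ} (hf : ∀ n, f n ≤ pl k n) (hg : ∀ n, g n ≤ pl k' n) :
    ∃ c, (∀ n, f n ≤ pl c n) ∧ ∀ n, g n ≤ pl c n :=
  ⟨max k k', fun n => (hf n).trans (pl_mono_left (le_max_left _ _) n),
    fun n => (hg n).trans (pl_mono_left (le_max_right _ _) n)⟩

end Pool.Agent.H88.BB
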