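import Pool.Agent.H88.BB.Asymp

/-!
# Black-box TFNP, decision tree reductions, nonuniform NP
-/

namespace Pool.Agent.H88.BB

/-- Decision trees over Boolean variables `v : V` with outputs in `O`. -/
inductive DT (V O : Type) : Type
  | leaf (o : O) : DT V O
  | node (v : V) (next : Bool → DT V O) : DT V O

namespace DT

variable {V W O P : Type}

/-- The output of a decision tree on an assignment. -/
def eval : DT V O → (V → Bool) → O
  | leaf o, _ => o
  | node v next, x => (next (x v)).eval x

/-- The depth of a decision tree. -/
def depth : DT V O → ℕ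
  | leaf _ => 0
  | node _ next => 1 + max (next false).depth (next true).depth

end DT

/-- A total search problem in the decision tree model (TFNP^dt): for inputs of `n` bits there are
`sol n` possible solutions, and solution `z` is verified by the decision tree `ver n z`. -/
structure Problem where
  /-- exponent of the polylogarithmic bounds -/
  k : ℕ
  sol : ℕ → ℕ
  ver : (n : ℕ) → Fin (sol n) → DT (Fin n) Bool
  sol_le : ∀ n, sol n ≤ 2 ^ pl k n
  depth_le : ∀ n z, (ver n z).depth ≤ pl k n
  total : ∀ n (x : Fin n → Bool), ∃ z, (ver n z).eval x = true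

/-- `z` is a solution of `x`. -/
def Problem.IsSol (S : Problem) (n : ℕ) (x : Fin n → Bool) (z : Fin (S.sol n)) : Prop :=
  (S.ver n z).eval x = true

/-- Projections: each bit of the `T`-instance is a constant or a bit of `x`, the translation of
the solutions does not depend on `x`, the instance has quasipolynomial size. -/
def Projects (S T : Problem) : Prop :=
  ∃ c, ∀ n, ∃ m ≤ 2 ^ pl c n, ∃ f : Fin m → Fin n ⊕ Bool, ∃ g : Fin (T.sol m) → Fin (S.sol n),
    ∀ x z, T.IsSol m (fun i => Sum.elim x id (f i)) z → S.IsSol n x (g z)

/-- Many-one reductions: the bits of the `T`-instance and the translation of its solutions are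
computed by decision trees of polylogarithmic depth, the instance has quasipolynomial size. -/
def Reduces (S T : Problem) : Prop :=
  ∃ c, ∀ n, ∃ m ≤ 2 ^ pl c n, ∃ f : Fin m → DT (Fin n) Bool,
    ∃ g : Fin (T.sol m) → DT (Fin n) (Fin (S.sol n)),
      (∀ i, (f i).depth ≤ pl c n) ∧ (∀ z, (g z).depth ≤ pl c n) ∧
      ∀ x z, T.IsSol m (fun i => (f i).eval x) z → S.IsSol n x ((g z).eval x)

/-- Decision trees with queries to `T`: in a query the bits of the `T`-instance are computed by
decision trees; any solution may be the answer. -/
inductive Turing (T : Problem) (X O : Type) : Type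
  | leaf (o : O) : Turing T X O
  | node (v : X) (next : Bool → Turing T X O) : Turing T X O
  | query (m : ℕ) (f : Fin m → DT X Bool) (next : Fin (T.sol m) → Turing T X O) : Turing T X O

namespace Turing

variable {T : Problem} {X O : Type}

/-- `o` is a possible output on `x`. -/
def Out : Turing T X O → (X → Bool) → O → Prop
  | leaf o, _, o' => o' = o
  | node v next, x, o' => (next (x v)).Out x o'
  | query m f next, x, o' => ∃ z, T.IsSol m (fun i => (f i).eval x) z ∧ (next z).Out x o'

/-- Cost: one for each variable read, `1 + log₂ m + d` for a query whose instance has `m` bits,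
computed by trees of depth at most `d`. -/
def cost : Turing T X O → ℕ
  | leaf _ => 0
  | node _ next => 1 + max (next false).cost (next true).cost
  | query m f next => 1 + Nat.log 2 m + Finset.univ.sup (fun i => (f i).depth) +
      Finset.univ.sup (fun z => (next z).cost)

end Turing

/-- `S` is Turing reducible to `T` at polylogarithmic cost. -/
def TuringReduces (S T : Problem) : Prop :=
  ∃ c, ∀ n, ∃ t : Turing T (Fin n) (Fin (S.sol n)),
    t.cost ≤ pl c n ∧ ∀ x o, t.Out x o → S.IsSol n x o

/-- A CNF over the variables `V`: a finite set of clauses; a clause is a finite set of literals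
`(v, b)` (true iff `v` has the value `b`). -/
abbrev CNF (V : Type) := Finset (Finset (V × Bool))

/-- The assignment `x` satisfies the CNF. -/
def Sat {V : Type} (Φ : CNF V) (x : V → Bool) : Prop := ∀ C ∈ Φ, ∃ l ∈ C, x l.1 = l.2

/-- Families of sets of `n`-bit strings. -/
abbrev Language := (n : ℕ) → Set (Fin n → Bool)

/-- Nonuniform NP of quasipolynomial size: `x ∈ L n` iff `Φ n (x, ·)` is satisfiable, where
`Φ n` is a CNF with at most `2^polylog(n)` variables and clauses. -/
def InNP (L : Language) : Prop :=
  ∃ c, ∀ n, ∃ s ≤ 2 ^ pl c n, ∃ Φ : CNF (Fin n ⊕ Fin s), Φ.card ≤ 2 ^ pl c n ∧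
    ∀ x, x ∈ L n ↔ ∃ w : Fin s → Bool, Sat Φ (Sum.elim x w)

end Pool.Agent.H88.BB
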