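import Pool.Agent.H88.BB.Tree

/-!
# Decision trees given by tables of bits
-/

namespace Pool.Agent.H88.BB

/-- Bits coding a family (indexed by `Q`) of decision trees of depth `d`; labels of inner nodes
have `L` bits, outputs have `E` bits. -/
abbrev Tab (Q : Type) (d L E : ℕ) : Type :=
  (Q × (Fin (d + 1) × (Fin d → Bool)) × Fin L) ⊕ (Q × (Fin d → Bool) × Fin E)

theorem card_Tab (Q : Type) [Fintype Q] (d L E : ℕ) :
    Fintype.card (Tab Q d L E) =
      Fintype.card Q * ((d + 1) * 2 ^ d * L) + Fintype.card Q * (2 ^ d * E) := by
  simp [Fintype.card_sum, Fintype.card_prod]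

section

variable {Q X O : Type} {d L E : ℕ}

/-- Evaluation of the coded trees. -/
def ctree (decX : (Fin L → Bool) → X) (decO : (Fin E → Bool) → O) (q : Q) :
    (fuel i : ℕ) → (Fin d → Bool) → DT (Tab Q d L E ⊕ X) O
  | 0, _, r => (DT.readVec E (fun j => Sum.inl (Sum.inr (q, r, j)))).map decO
  | fuel + 1, i, r =>
    (DT.readVec L (fun j => Sum.inl (Sum.inl (q, (Fin.ofNat (d + 1) i, r), j)))).bind fun w =>
      DT.node (Sum.inr (decX w)) fun b =>
        ctree decX decO q fuel (i + 1) (fun j => if j.1 = i then b else r j)

theorem depth_ctree (decX : (Fin L → Bool) → X) (decO : (Fin E → Bool) → O) (q : Q) :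
    ∀ (fuel i : ℕ) (r : Fin d → Bool),
      (ctree decX decO q fuel i r : DT (Tab Q d L E ⊕ X) O).depth ≤ fuel * (L + 1) + E := by
  intro fuel
  induction fuel with
  | zero =>
    intro i r
    simp only [ctree]
    refine (DT.depth_map_le _ _).trans ((DT.depth_readVec _ _).trans (by omega))
  | succ fuel ih =>
    intro i r
    simp only [ctree]
    refine (DT.depth_bind_le _ _ L (fuel * (L + 1) + E + 1) (DT.depth_readVec _ _)
      (fun w => ?_)).trans (by rw [Nat.succ_mul]; omega)
    exact DT.depth_node_le _ _ _ (fun b => ih _ _)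

/-- Go to a child. -/
def DT.step : DT X O → Bool → DT X O
  | DT.leaf o, _ => DT.leaf o
  | DT.node _ next, b => next b

/-- Subtree reached by a path. -/
def follow (t : DT X O) : ℕ → (Fin d → Bool) → DT X O
  | 0, _ => t
  | i + 1, r => (follow t i r).step (if h : i < d then r ⟨i, h⟩ else false)

theorem follow_congr (t : DT X O) (r r' : Fin d → Bool) :
    ∀ i, (∀ j : Fin d, j.1 < i → r j = r' j) → follow t i r = follow t i r' := by
  intro i
  induction i with
  | zero => intro _; rfl
  | succ i ih =>
    intro h
    simp only [follow]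
    rw [ih (fun j hj => h j (by omega))]
    by_cases hi : i < d
    · simp only [hi, dif_pos]
      rw [h ⟨i, hi⟩ (by simp)]
    · simp only [hi, dif_neg, not_false_eq_true]

/-- Label of the root. -/
def DT.lab (x0 : X) : DT X O → X
  | DT.leaf _ => x0
  | DT.node v _ => v

/-- Output at the root. -/
def DT.out (o0 : O) : DT X O → O
  | DT.leaf o => o
  | DT.node _ _ => o0

/-- The bits coding a family of trees. -/
def code (encX : X → (Fin L → Bool)) (encO : O → (Fin E → Bool)) (x0 : X) (o0 : O)
    (t : Q → DT X O) : Tab Q d L E → Bool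
  | Sum.inl (q, (i, r), j) => encX (DT.lab x0 (follow (t q) i.1 r)) j
  | Sum.inr (q, r, j) => encO (DT.out o0 (follow (t q) d r)) j

theorem eval_ctree (encX : X → (Fin L → Bool)) (decX : (Fin L → Bool) → X)
    (hX : ∀ x, decX (encX x) = x) (encO : O → (Fin E → Bool)) (decO : (Fin E → Bool) → O)
    (hO : ∀ o, decO (encO o) = o) (x0 : X) (o0 : O) (t : Q → DT X O) (q : Q) (x : X → Bool) :
    ∀ (fuel i : ℕ) (r : Fin d → Bool), fuel + i = d → (follow (t q) i r).depth ≤ fuel →
      (ctree decX decO q fuel i r).eval (Sum.elim (code encX encO x0 o0 t) x) =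
        (follow (t q) i r).eval x := by
  intro fuel
  induction fuel with
  | zero =>
    intro i r hi hd
    obtain rfl : i = d := by omega
    simp only [ctree, DT.eval_map, DT.eval_readVec, Sum.elim_inl, code]
    rw [hO]
    cases hf : follow (t q) i r with
    | leaf o => rfl
    | node v next =>
      rw [hf] at hd
      simp [DT.depth] at hd
  | succ fuel ih =>
    intro i r hi hd
    have hid : i < d := by omega
    simp only [ctree, DT.eval_bind, DT.eval_readVec, Sum.elim_inl, code, DT.eval, Sum.elim_inr]
    have hval : (Fin.ofNat (d + 1) i).1 = i := by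
      simp only [Fin.ofNat]
      exact Nat.mod_eq_of_lt (by omega)
    rw [hval, hX]
    set b := x (DT.lab x0 (follow (t q) i r)) with hb
    set r' : Fin d → Bool := fun j => if j.1 = i then b else r j with hr'
    have hfol : follow (t q) i r' = follow (t q) i r := by
      apply follow_congr
      intro j hj
      have : j.1 ≠ i := by omega
      simp [hr', this]
    have hstep : follow (t q) (i + 1) r' = (follow (t q) i r).step b := by
      simp only [follow, hfol, hid, dif_pos]
      congr 1
      simp [hr']
    have hd' : (follow (t q) (i + 1) r').depth ≤ fuel := by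
      rw [hstep]
      cases hf : follow (t q) i r with
      | leaf o => simp [DT.step, DT.depth]
      | node v next =>
        rw [hf] at hd
        have := DT.depth_next v next b
        simp only [DT.step]
        omega
    have key := ih (i + 1) r' (by omega) hd'
    refine key.trans ?_
    rw [hstep]
    cases hf : follow (t q) i r with
    | leaf o => rfl
    | node v next =>
      have : b = x v := by rw [hb, hf]; rfl
      simp only [DT.step, DT.eval, this]

/-- Evaluation of a coded tree of depth at most `d`. -/
theorem eval_ctree_root (encX : X → (Fin L → Bool)) (decX : (Fin L → Bool) → X)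
    (hX : ∀ x, decX (encX x) = x) (encO : O → (Fin E → Bool)) (decO : (Fin E → Bool) → O)
    (hO : ∀ o, decO (encO o) = o) (x0 : X) (o0 : O) (t : Q → DT X O) (q : Q) (x : X → Bool)
    (hd : (t q).depth ≤ d) :
      (ctree decX decO q d 0 (fun _ => false)).eval
        (Sum.elim (code (d := d) encX encO x0 o0 t) x) = (t q).eval x :=
  eval_ctree encX decX hX encO decO hO x0 o0 t q x d 0 (fun _ => false) (by omega) hd

end

end Pool.Agent.H88.BB
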