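import Pool.Agent.H88.BB.Tree

/-!
# Splitting a CNF into conditions depending on at most three variables
-/

namespace Pool.Agent.H88.BB

open Classical

section Ladder

variable {V : Type} [Fintype V]

/-- Enumeration of the literals. -/
noncomputable def lits (V : Type) [Fintype V] : Fin (Fintype.card (V × Bool)) ≃ V × Bool :=
  (Fintype.equivFin (V × Bool)).symm

/-- Auxiliary variables: for each clause and each `j`: some literal of the clause among the first
`j` literals is true. -/
abbrev Aux (Φ : CNF V) := {C // C ∈ Φ} × Fin (Fintype.card (V × Bool) + 1)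

/-- Names of the local conditions. -/
abbrev Cond (Φ : CNF V) := {C // C ∈ Φ} × (Fin (Fintype.card (V × Bool)) ⊕ Bool)

/-- The local conditions. -/
noncomputable def ladder (Φ : CNF V) : Cond Φ → DT (V ⊕ Aux Φ) Bool
  | (C, Sum.inr false) => DT.node (Sum.inr (C, 0)) fun b => DT.leaf (!b)
  | (C, Sum.inr true) => DT.node (Sum.inr (C, Fin.last _)) fun b => DT.leaf b
  | (C, Sum.inl j) =>
    DT.node (Sum.inr (C, j.succ)) fun b => DT.node (Sum.inr (C, j.castSucc)) fun b' =>
      DT.node (Sum.inl (lits V j).1) fun v =>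
        DT.leaf (!b || (b' || (decide (lits V j ∈ C.1) && (v == (lits V j).2))))

theorem depth_ladder (Φ : CNF V) (z : Cond Φ) : (ladder Φ z).depth ≤ 3 := by
  obtain ⟨C, j | b⟩ := z
  · simp [ladder, DT.depth]
  · cases b <;> simp [ladder, DT.depth]

theorem eval_ladder_inl (Φ : CNF V) (x : V → Bool) (w : Aux Φ → Bool) (C : {C // C ∈ Φ})
    (j : Fin (Fintype.card (V × Bool))) :
    (ladder Φ (C, Sum.inl j)).eval (Sum.elim x w) = true ↔
      (w (C, j.succ) = true → w (C, j.castSucc) = true ∨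
        (lits V j ∈ C.1 ∧ x (lits V j).1 = (lits V j).2)) := by
  simp only [ladder, DT.eval, Sum.elim_inr, Sum.elim_inl]
  cases w (C, j.succ) <;> cases w (C, j.castSucc) <;> simp

theorem sat_iff_ladder (Φ : CNF V) (x : V → Bool) :
    Sat Φ x ↔ ∃ w : Aux Φ → Bool, ∀ z, (ladder Φ z).eval (Sum.elim x w) = true := by
  constructor
  · intro h
    refine ⟨fun p => decide (∃ j : Fin (Fintype.card (V × Bool)), j.1 < p.2.1 ∧
      lits V j ∈ p.1.1 ∧ x (lits V j).1 = (lits V j).2), ?_⟩
    rintro ⟨C, j | b⟩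
    · rw [eval_ladder_inl]
      intro h1
      obtain ⟨i, hi, hiC, hix⟩ := of_decide_eq_true h1
      simp only [Fin.val_succ] at hi
      by_cases hij : i = j
      · subst hij
        exact Or.inr ⟨hiC, hix⟩
      · left
        rw [decide_eq_true_iff]
        have hij' : i.1 ≠ j.1 := fun h => hij (Fin.ext h)
        exact ⟨i, by simp only [Fin.val_castSucc]; omega, hiC, hix⟩
    · cases b with
      | false => simp [ladder, DT.eval]
      | true =>
        simp only [ladder, DT.eval, Sum.elim_inr]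
        rw [decide_eq_true_iff]
        obtain ⟨l, hl, hx⟩ := h C.1 C.2
        refine ⟨(lits V).symm l, ?_, ?_, ?_⟩
        · simp only [Fin.val_last]; exact ((lits V).symm l).2
        · simpa using hl
        · simpa using hx
  · rintro ⟨w, hw⟩ C hC
    have key : ∀ j : ℕ, ∀ hj : j < Fintype.card (V × Bool) + 1, w (⟨C, hC⟩, ⟨j, hj⟩) = true →
        ∃ l ∈ C, x l.1 = l.2 := by
      intro j
      induction j with
      | zero =>
        intro hj h
        have := hw (⟨C, hC⟩, Sum.inr false)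
        simp only [ladder, DT.eval, Sum.elim_inr] at this
        have h' : w (⟨C, hC⟩, 0) = true := h
        rw [h'] at this
        exact absurd this (by simp)
      | succ j ih =>
        intro hj h
        rcases (eval_ladder_inl Φ x w ⟨C, hC⟩ ⟨j, by omega⟩).1 (hw _) h with h2 | h2
        · exact ih (by omega) h2
        · exact ⟨_, h2.1, h2.2⟩
    have hl := hw (⟨C, hC⟩, Sum.inr true)
    simp only [ladder, DT.eval, Sum.elim_inr] at hl
    exact key _ _ hl

end Ladder

theorem lt_two_pow_log (n : ℕ) : n < 2 ^ (Nat.log 2 n + 1) := Nat.lt_pow_succ_log_self (by norm_num) n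

/-- Languages in nonuniform NP are verified by decision trees of depth three. -/
theorem shallow_of_InNP (L : Language) (hL : InNP L) :
    ∃ (W Z : ℕ → Type) (_ : ∀ n, Fintype (W n)) (_ : ∀ n, Fintype (Z n))
      (chk : ∀ n, Z n → DT (Fin n ⊕ W n) Bool) (d : ℕ → ℕ),
      Bd (fun n => Nat.log 2 n) d ∧ (∀ n, Fintype.card (W n) ≤ 2 ^ d n) ∧
      (∀ n, Fintype.card (Z n) ≤ 2 ^ d n) ∧ (∀ n z, (chk n z).depth ≤ 3) ∧
      ∀ n x, x ∈ L n ↔ ∃ w : W n → Bool, ∀ z, (chk n z).eval (Sum.elim x w) = true := by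
  obtain ⟨c, hc⟩ := hL
  choose s hs Φ hΦ hx using hc
  refine ⟨fun n => Fin (s n) ⊕ Aux (Φ n), fun n => Cond (Φ n), fun n => inferInstance,
    fun n => inferInstance, fun n z => (ladder (Φ n) z).rename (Equiv.sumAssoc _ _ _),
    fun n => 2 * pl c n + Nat.log 2 n + 5, ?_, ?_, ?_, ?_, ?_⟩
  · exact (((Bd.const _ 2).mul (Bd.pl_self c)).add (Bd.self _)).add_const 5
  · intro n
    simp only [Fintype.card_sum, Fintype.card_prod, Fintype.card_fin, Fintype.card_bool,
      Fintype.card_coe]
    have h1 := hs n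
    have h2 := hΦ n
    have h3 := lt_two_pow_log n
    set P := 2 ^ pl c n with hP
    set N := 2 ^ (Nat.log 2 n + 1) with hN
    have hP1 : 1 ≤ P := Nat.one_le_two_pow
    have hN1 : 1 ≤ N := Nat.one_le_two_pow
    have e : 2 ^ (2 * pl c n + Nat.log 2 n + 5) = 16 * (P * P * N) := by
      rw [hP, hN, ← pow_add, ← pow_add, show (16 : ℕ) = 2 ^ 4 by norm_num, ← pow_add]
      congr 1; ring
    rw [e]
    have h4 : (n + s n) * 2 + 1 ≤ 4 * (P * N) + 1 := by nlinarith
    have h5 : (Φ n).card * ((n + s n) * 2 + 1) ≤ P * (4 * (P * N) + 1) := Nat.mul_le_mul h2 h4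
    nlinarith [Nat.mul_le_mul hP1 hN1, Nat.mul_le_mul hP1 hP1, Nat.mul_le_mul (Nat.mul_le_mul hP1 hP1) hN1, Nat.mul_le_mul_left P (Nat.mul_le_mul hP1 hN1)]
  · intro n
    simp only [Fintype.card_sum, Fintype.card_prod, Fintype.card_fin, Fintype.card_bool,
      Fintype.card_coe]
    have h1 := hs n
    have h2 := hΦ n
    have h3 := lt_two_pow_log n
    set P := 2 ^ pl c n with hP
    set N := 2 ^ (Nat.log 2 n + 1) with hN
    have hP1 : 1 ≤ P := Nat.one_le_two_pow
    have hN1 : 1 ≤ N := Nat.one_le_two_pow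
    have e : 2 ^ (2 * pl c n + Nat.log 2 n + 5) = 16 * (P * P * N) := by
      rw [hP, hN, ← pow_add, ← pow_add, show (16 : ℕ) = 2 ^ 4 by norm_num, ← pow_add]
      congr 1; ring
    rw [e]
    have h4 : (n + s n) * 2 + 2 ≤ 4 * (P * N) + 2 := by nlinarith
    have h5 : (Φ n).card * ((n + s n) * 2 + 2) ≤ P * (4 * (P * N) + 2) := Nat.mul_le_mul h2 h4
    nlinarith [Nat.mul_le_mul hP1 hN1, Nat.mul_le_mul hP1 hP1, Nat.mul_le_mul (Nat.mul_le_mul hP1 hP1) hN1, Nat.mul_le_mul_left P (Nat.mul_le_mul hP1 hN1)]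
  · intro n z
    exact (DT.depth_rename_le _ _).trans (depth_ladder _ _)
  · intro n x
    rw [hx]
    constructor
    · rintro ⟨u, hu⟩
      obtain ⟨w, hw⟩ := (sat_iff_ladder _ _).1 hu
      refine ⟨Sum.elim u w, fun z => ?_⟩
      rw [DT.eval_rename, ← hw z]
      congr 1
      funext v
      rcases v with (i | j) | r <;> rfl
    · rintro ⟨w, hw⟩
      refine ⟨fun j => w (Sum.inl j), (sat_iff_ladder _ _).2 ⟨fun r => w (Sum.inr r), fun z => ?_⟩⟩
      have := hw z
      rw [DT.eval_rename] at this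
      rw [← this]
      congr 1
      funext v
      rcases v with (i | j) | r <;> rfl

end Pool.Agent.H88.BB
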