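import Pool.Agent.H88.BB.Code

/-!
# Simulation of a Turing reduction given by a table of bits
-/

namespace Pool.Agent.H88.BB

/-- Positions in a Turing reduction of at most `D + 1` steps with answers in `Fin B`. -/
abbrev Hist (D B : ℕ) : Type := Fin (D + 1) × (Fin (D + 1) → Fin B)

/-- Bits coding a Turing reduction. -/
abbrev UT (D B M L E : ℕ) : Type := (Hist D B × Fin E) ⊕ Tab (Hist D B × Fin M) D L 1

/-- One bit as a vector. -/
def encB (b : Bool) : Fin 1 → Bool := fun _ => b

/-- The bit of a vector. -/
def decB (w : Fin 1 → Bool) : Bool := w 0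

theorem decB_encB (b : Bool) : decB (encB b) = b := rfl

/-- Set one coordinate. -/
def upd {D B : ℕ} (h : Fin (D + 1) → Fin B) (i : ℕ) (z : Fin B) : Fin (D + 1) → Fin B :=
  fun j => if j.1 = i then z else h j

section

variable (T : Problem) {X O G : Type} {D B M L E : ℕ}
variable (ιU : UT D B M L E → G) (ιX : X → G) (SV : O → DT G Bool)
variable (decI : (Fin E → Bool) → O ⊕ (X ⊕ Fin M)) (decX : (Fin L → Bool) → X)
variable (bitF : Bool → Fin B)

/-- One step of the simulation. -/
def simK (info : O ⊕ (X ⊕ Fin M)) (ctr : Fin M → DT G Bool) (z : Fin B)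
    (kb : Bool → DT G Bool) (kz : DT G Bool) : DT G Bool :=
  match info with
  | Sum.inl o => SV o
  | Sum.inr (Sum.inl v) => DT.node (ιX v) kb
  | Sum.inr (Sum.inr m) =>
    if hz : z.1 < T.sol m.1 then
      ((T.ver m.1 ⟨z.1, hz⟩).subst (fun i' => ctr (Fin.castLE m.2.le i'))).bind
        (fun acc => if acc = true then kz else DT.leaf true)
    else DT.leaf true

/-- The tree computing a bit of a query. -/
def qtree (p : Hist D B) (i' : Fin M) : DT G Bool :=
  (ctree (Q := Hist D B × Fin M) (d := D) (L := L) (E := 1) decX decB (p, i') D 0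
    (fun _ => false)).rename (Sum.elim (fun u => ιU (Sum.inr u)) ιX)

/-- The simulation. -/
def sim : (fuel i : ℕ) → (Fin (D + 1) → Fin B) → (Fin fuel → Fin B) → DT G Bool
  | 0, _, _, _ => DT.leaf false
  | fuel + 1, i, h, ζ =>
    (DT.readVec E (fun j => ιU (Sum.inl ((Fin.ofNat (D + 1) i, h), j)))).bind fun w =>
      simK T ιX SV (decI w) (qtree ιU ιX decX (Fin.ofNat (D + 1) i, h)) (ζ 0)
        (fun b => sim fuel (i + 1) (upd h i (bitF b)) (Fin.tail ζ))
        (sim fuel (i + 1) (upd h i (ζ 0)) (Fin.tail ζ))

theorem depth_qtree (p : Hist D B) (i' : Fin M) :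
    (qtree (E := E) ιU ιX decX p i').depth ≤ D * (L + 1) + 1 :=
  (DT.depth_rename_le _ _).trans (depth_ctree _ _ _ _ _ _)

theorem depth_simK (info : O ⊕ (X ⊕ Fin M)) (ctr : Fin M → DT G Bool) (z : Fin B)
    (kb : Bool → DT G Bool) (kz : DT G Bool) (P a s r : ℕ)
    (hP : ∀ m < M, ∀ z, (T.ver m z).depth ≤ P) (ha : ∀ i, (ctr i).depth ≤ a)
    (hs : ∀ o, (SV o).depth ≤ s) (hkb : ∀ b, (kb b).depth ≤ r) (hkz : kz.depth ≤ r) (hsr : s ≤ r) :
    (simK T ιX SV info ctr z kb kz).depth ≤ 1 + P * a + r := by
  rcases info with o | v | m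
  · simp only [simK]
    have := hs o
    omega
  · simp only [simK]
    have := DT.depth_node_le (ιX v) kb r hkb
    omega
  · simp only [simK]
    split_ifs with hz
    · refine (DT.depth_bind_le _ _ (P * a) r (DT.depth_subst_le _ _ P a (hP _ m.2 _)
        (fun i => ha _)) (fun acc => ?_)).trans (by omega)
      split_ifs
      · exact hkz
      · simp [DT.depth]
    · simp [DT.depth]

theorem depth_sim (P s : ℕ) (hP : ∀ m < M, ∀ z, (T.ver m z).depth ≤ P)
    (hs : ∀ o, (SV o).depth ≤ s) : ∀ (fuel i : ℕ) (h : Fin (D + 1) → Fin B) (ζ : Fin fuel → Fin B),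
    (sim T ιU ιX SV decI decX bitF fuel i h ζ).depth ≤
      fuel * (E + 1 + P * (D * (L + 1) + 1)) + s := by
  intro fuel
  induction fuel with
  | zero => intro i h ζ; simp [sim, DT.depth]
  | succ fuel ih =>
    intro i h ζ
    simp only [sim]
    refine (DT.depth_bind_le _ _ E (1 + P * (D * (L + 1) + 1) +
      (fuel * (E + 1 + P * (D * (L + 1) + 1)) + s)) (DT.depth_readVec _ _) (fun w => ?_)).trans
      (by rw [Nat.succ_mul]; omega)
    exact depth_simK T ιX SV _ _ _ _ _ P _ s _ hP (fun i => depth_qtree ιU ιX decX _ i) hs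
      (fun b => ih _ _ _) (ih _ _ _) (by omega)

/-- Soundness: if the simulation accepts for all guesses, there is a verified output. -/
theorem sim_sound (hB : ∀ m < M, T.sol m ≤ B) (z0 : Fin B) (γ : G → Bool) :
    ∀ (fuel i : ℕ) (h : Fin (D + 1) → Fin B),
      (∀ ζ, (sim T ιU ιX SV decI decX bitF fuel i h ζ).eval γ = true) →
      ∃ o, (SV o).eval γ = true := by
  intro fuel
  induction fuel with
  | zero =>
    intro i h hall
    have := hall Fin.elim0
    exact absurd this (by simp [sim, DT.eval])
  | succ fuel ih =>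
    intro i h hall
    simp only [sim, DT.eval_bind, DT.eval_readVec] at hall
    set w : Fin E → Bool := fun j => γ (ιU (Sum.inl ((Fin.ofNat (D + 1) i, h), j))) with hw
    rcases hdec : decI w with o | v | m
    · rw [hdec] at hall
      exact ⟨o, hall (fun _ => z0)⟩
    · rw [hdec] at hall
      simp only [simK, DT.eval] at hall
      apply ih (i + 1) (upd h i (bitF (γ (ιX v))))
      intro ζ
      have := hall (Fin.cons z0 ζ)
      simpa using this
    · rw [hdec] at hall
      simp only [simK] at hall
      obtain ⟨z, hz⟩ := T.total m.1 (fun i' => (qtree ιU ιX decX (Fin.ofNat (D + 1) i, h)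
        (Fin.castLE m.2.le i')).eval γ)
      have hzB : z.1 < B := lt_of_lt_of_le z.2 (hB m.1 m.2)
      apply ih (i + 1) (upd h i ⟨z.1, hzB⟩)
      intro ζ
      have h1 := hall (Fin.cons ⟨z.1, hzB⟩ ζ)
      simp only [Fin.cons_zero, Fin.tail_cons, z.2, dif_pos, DT.eval_bind, DT.eval_subst] at h1
      rw [if_pos hz] at h1
      exact h1

/-! ### Completeness -/

/-- Go to a child of a Turing reduction. -/
def stepT {T : Problem} (s0 : Turing T X O) : Turing T X O → Fin B → Turing T X O
  | Turing.leaf o, _ => Turing.leaf o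
  | Turing.node _ next, r => next (decide (r.1 ≠ 0))
  | Turing.query m _ next, r => if hz : r.1 < T.sol m then next ⟨r.1, hz⟩ else s0

/-- Subreduction reached by a history. -/
def followT {T : Problem} (z0 : Fin B) (t : Turing T X O) :
    ℕ → (Fin (D + 1) → Fin B) → Turing T X O
  | 0, _ => t
  | i + 1, h => stepT t (followT z0 t i h) (if hi : i < D + 1 then h ⟨i, hi⟩ else z0)

theorem followT_congr {T : Problem} (z0 : Fin B) (t : Turing T X O) (h h' : Fin (D + 1) → Fin B) :
    ∀ i, (∀ j : Fin (D + 1), j.1 < i → h j = h' j) → followT z0 t i h = followT z0 t i h' := by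
  intro i
  induction i with
  | zero => intro _; rfl
  | succ i ih =>
    intro hh
    simp only [followT]
    rw [ih (fun j hj => hh j (by omega))]
    by_cases hi : i < D + 1
    · simp only [hi, dif_pos]
      rw [hh ⟨i, hi⟩ (by simp)]
    · simp only [hi, dif_neg, not_false_eq_true]

theorem followT_upd {T : Problem} (z0 : Fin B) (t : Turing T X O) (h : Fin (D + 1) → Fin B)
    (i : ℕ) (hi : i < D + 1) (z : Fin B) :
    followT z0 t (i + 1) (upd h i z) = stepT t (followT z0 t i h) z := by
  simp only [followT, hi, dif_pos]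
  rw [followT_congr z0 t (upd h i z) h i]
  · simp [upd]
  · intro j hj
    have : j.1 ≠ i := by omega
    simp [upd, this]

/-- Kind of the root. -/
def infoT {T : Problem} (m0 : Fin M) : Turing T X O → O ⊕ (X ⊕ Fin M)
  | Turing.leaf o => Sum.inl o
  | Turing.node v _ => Sum.inr (Sum.inl v)
  | Turing.query m _ _ => Sum.inr (Sum.inr (if hm : m < M then ⟨m, hm⟩ else m0))

/-- Trees computing the bits of the query at the root. -/
def bitsT {T : Problem} (i' : Fin M) : Turing T X O → DT X Bool
  | Turing.query m f _ => if h : i'.1 < m then f ⟨i'.1, h⟩ else DT.leaf false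
  | _ => DT.leaf false

/-- The bits coding a Turing reduction. -/
def codeT {T : Problem} (encI : O ⊕ (X ⊕ Fin M) → (Fin E → Bool)) (encX : X → (Fin L → Bool))
    (x0 : X) (z0 : Fin B) (m0 : Fin M) (t : Turing T X O) : UT D B M L E → Bool
  | Sum.inl ((i, h), j) => encI (infoT m0 (followT z0 t i.1 h)) j
  | Sum.inr u => code encX encB x0 false
      (fun q : Hist D B × Fin M => bitsT q.2 (followT z0 t q.1.1.1 q.1.2)) u

theorem le_supT {α : Type} [Fintype α] (f : α → ℕ) (a : α) : f a ≤ Finset.univ.sup f :=
  Finset.le_sup (f := f) (Finset.mem_univ a)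

theorem sim_complete (encI : O ⊕ (X ⊕ Fin M) → (Fin E → Bool)) (hI : ∀ a, decI (encI a) = a)
    (encX : X → (Fin L → Bool)) (hX : ∀ a, decX (encX a) = a) (x0 : X) (z0 : Fin B) (m0 : Fin M)
    (hM : 2 ^ (D + 1) ≤ M) (hbit : ∀ b, decide ((bitF b).1 ≠ 0) = b)
    (t : Turing T X O) (γ : G → Bool) (hγ : ∀ u, γ (ιU u) = codeT encI encX x0 z0 m0 t u) :
    ∀ (fuel i : ℕ) (h : Fin (D + 1) → Fin B) (ζ : Fin fuel → Fin B), fuel + i = D + 1 →
      (followT z0 t i h).cost < fuel →
      (∀ o, (followT z0 t i h).Out (fun v => γ (ιX v)) o → (SV o).eval γ = true) →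
      (sim T ιU ιX SV decI decX bitF fuel i h ζ).eval γ = true := by
  intro fuel
  induction fuel with
  | zero => intro i h ζ _ hc; exact absurd hc (by omega)
  | succ fuel ih =>
    intro i h ζ hfi hc hout
    have hiD : i < D + 1 := by omega
    have hval : (Fin.ofNat (D + 1) i).1 = i := by
      simp only [Fin.ofNat]
      exact Nat.mod_eq_of_lt (by omega)
    simp only [sim, DT.eval_bind, DT.eval_readVec, hγ, codeT]
    rw [hval, hI]
    have hup := followT_upd z0 t h i hiD
    cases hs : followT z0 t i h with
    | leaf o =>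
      simp only [infoT, simK]
      apply hout
      rw [hs]; rfl
    | node v next =>
      simp only [infoT, simK, DT.eval]
      rw [hs] at hc hout hup
      set b := γ (ιX v) with hb
      have h1 := hup (bitF b)
      simp only [stepT, hbit] at h1
      have h2 : (next b).cost ≤ max (next false).cost (next true).cost := by
        cases b
        · exact le_max_left _ _
        · exact le_max_right _ _
      simp only [Turing.cost] at hc
      apply ih (i + 1) _ _ (by omega)
      · rw [h1]; omega
      · rw [h1]
        intro o ho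
        exact hout o ho
    | query m f next =>
      rw [hs] at hc hout hup
      simp only [Turing.cost] at hc
      have hm : m < M := by
        refine lt_of_lt_of_le (Nat.lt_pow_of_log_lt (by norm_num) ?_) hM
        omega
      simp only [infoT, hm, dif_pos, simK]
      split_ifs with hz
      · simp only [DT.eval_bind, DT.eval_subst]
        have hbits : ∀ i' : Fin m, (qtree (E := E) ιU ιX decX (Fin.ofNat (D + 1) i, h)
            (Fin.castLE hm.le i')).eval γ = (f i').eval (fun v => γ (ιX v)) := by
          intro i'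
          simp only [qtree, DT.eval_rename]
          have h3 : (fun v : Tab (Hist D B × Fin M) D L 1 ⊕ X =>
              γ (Sum.elim (fun u => ιU (Sum.inr u)) ιX v)) =
              Sum.elim (code encX encB x0 false
                (fun q : Hist D B × Fin M => bitsT q.2 (followT z0 t q.1.1.1 q.1.2)))
                (fun v => γ (ιX v)) := by
            funext v
            rcases v with u | v
            · simp only [Sum.elim_inl, hγ, codeT]
            · rfl
          rw [h3]
          have hb : bitsT (Fin.castLE hm.le i') (followT z0 t (Fin.ofNat (D + 1) i).1 h) = f i' := by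
            rw [hval, hs]
            simp only [bitsT, Fin.val_castLE, i'.2, dif_pos]
          have h4 := eval_ctree_root (d := D) encX decX hX encB decB decB_encB x0 false
            (fun q : Hist D B × Fin M => bitsT q.2 (followT z0 t q.1.1.1 q.1.2))
            ((Fin.ofNat (D + 1) i, h), Fin.castLE hm.le i') (fun v => γ (ιX v)) (by
              simp only
              rw [hb]
              have : (f i').depth ≤ Finset.univ.sup (fun i => (f i).depth) :=
                le_supT (fun i => (f i).depth) i'
              omega)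
          refine h4.trans ?_
          simp only
          rw [hb]
        simp only [hbits]
        split_ifs with hacc
        · have h1 := hup (ζ 0)
          simp only [stepT, hz, dif_pos] at h1
          have h2 : (next ⟨(ζ 0).1, hz⟩).cost ≤ Finset.univ.sup (fun z => (next z).cost) :=
            le_supT (fun z => (next z).cost) ⟨(ζ 0).1, hz⟩
          apply ih (i + 1) _ _ (by omega)
          · rw [h1]; omega
          · rw [h1]
            intro o ho
            exact hout o ⟨_, hacc, ho⟩
        · rfl
      · rfl

end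

end Pool.Agent.H88.BB
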