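import Pool.Agent.H88.BB.Tree

/-!
# Search problems over arbitrary finite types as black-box TFNP problems
-/

namespace Pool.Agent.H88.BB

theorem pair_le_two_pow' {a b e : ℕ} (ha : a + 1 ≤ 2 ^ e) (hb : b + 1 ≤ 2 ^ e) :
    Nat.pair a b ≤ 2 ^ (2 * e) := by
  have h := Nat.pair_lt_max_add_one_sq a b
  have h2 : max a b + 1 ≤ 2 ^ e := by
    rcases le_total a b with h | h
    · rw [max_eq_right h]; exact hb
    · rw [max_eq_left h]; exact ha
  calc Nat.pair a b ≤ (max a b + 1) ^ 2 := h.le
    _ ≤ (2 ^ e) ^ 2 := Nat.pow_le_pow_left h2 2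
    _ = 2 ^ (2 * e) := by rw [← pow_mul, mul_comm]

/-- Place a finite type into an initial segment. -/
noncomputable def embLE (V : Type) [Fintype V] {m : ℕ} (h : Fintype.card V ≤ m) : V → Fin m :=
  fun v => Fin.castLE h (Fintype.equivFin V v)

theorem embLE_injective (V : Type) [Fintype V] {m : ℕ} (h : Fintype.card V ≤ m) :
    Function.Injective (embLE V h) := by
  intro a b hab
  exact (Fintype.equivFin V).injective (Fin.castLE_injective h hab)

/-- The index at which the family `V` is placed. -/
def idx (V : ℕ → Type) [∀ t, Fintype (V t)] (t : ℕ) : ℕ := Nat.pair t (Fintype.card (V t))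

theorem card_le_idx (V : ℕ → Type) [∀ t, Fintype (V t)] (t : ℕ) :
    Fintype.card (V t) ≤ idx V t := Nat.right_le_pair _ _

/-- The embedding used. -/
noncomputable def emb (V : ℕ → Type) [∀ t, Fintype (V t)] (t : ℕ) : V t → Fin (idx V t) :=
  embLE (V t) (card_le_idx V t)

theorem exists_problem (V Z : ℕ → Type) [∀ t, Fintype (V t)] [∀ t, Fintype (Z t)]
    (chk : ∀ t, Z t → DT (V t) Bool) (htot : ∀ t (x : V t → Bool), ∃ z, (chk t z).eval x = true)
    (d : ℕ → ℕ) (hZ : ∀ t, Fintype.card (Z t) ≤ 2 ^ d t) (hd : ∀ t z, (chk t z).depth ≤ d t)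
    (k : ℕ) (hk : ∀ t, d t ≤ pl k (idx V t)) :
    ∃ P : Problem, ∀ t, ∃ zi : Fin (P.sol (idx V t)) ≃ Z t, ∀ z y,
      (P.ver (idx V t) z).eval y = (chk t (zi z)).eval (fun v => y (emb V t v)) := by
  have key : ∀ m, ∃ (s : ℕ) (ver : Fin s → DT (Fin m) Bool), s ≤ 2 ^ pl k m ∧
      (∀ z, (ver z).depth ≤ pl k m) ∧ (∀ x, ∃ z, (ver z).eval x = true) ∧
      ∀ t (h : idx V t = m), ∃ zi : Fin s ≃ Z t, ∀ z (y : Fin m → Bool),
        (ver z).eval y = (chk t (zi z)).eval (fun v => y (Fin.cast h (emb V t v))) := by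
    intro m
    by_cases h : ∃ t, idx V t = m
    · obtain ⟨t, rfl⟩ := h
      refine ⟨Fintype.card (Z t), fun z => (chk t ((Fintype.equivFin (Z t)).symm z)).rename
        (emb V t), (hZ t).trans (Nat.pow_le_pow_right (by norm_num) (hk t)), fun z => ?_,
        fun x => ?_, fun t' h' => ?_⟩
      · exact (DT.depth_rename_le _ _).trans ((hd t _).trans (hk t))
      · obtain ⟨z, hz⟩ := htot t (fun v => x (emb V t v))
        refine ⟨Fintype.equivFin (Z t) z, ?_⟩
        rw [DT.eval_rename, Equiv.symm_apply_apply]; exact hz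
      · have ht : t' = t := by
          have := congrArg (fun m => (Nat.unpair m).1) h'
          simpa [idx, Nat.unpair_pair] using this
        subst ht
        refine ⟨(Fintype.equivFin (Z t')).symm, fun z y => ?_⟩
        rw [DT.eval_rename]
        rfl
    · refine ⟨1, fun _ => DT.leaf true, Nat.one_le_two_pow, fun _ => by simp [DT.depth],
        fun _ => ⟨0, rfl⟩, fun t' h' => absurd ⟨t', h'⟩ h⟩
  choose s ver h1 h2 h3 h4 using key
  refine ⟨⟨k, s, ver, h1, h2, h3⟩, fun t => ?_⟩
  obtain ⟨zi, hzi⟩ := h4 (idx V t) t rfl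
  exact ⟨zi, fun z y => hzi z y⟩

namespace Turing

variable {T : Problem} {X O P : Type}

/-- Apply a function to the output. -/
def map (f : O → P) : Turing T X O → Turing T X P
  | leaf o => leaf (f o)
  | node v next => node v fun b => (next b).map f
  | query m g next => query m g fun z => (next z).map f

theorem out_map (f : O → P) (t : Turing T X O) (x : X → Bool) (p : P) :
    (t.map f).Out x p ↔ ∃ o, t.Out x o ∧ f o = p := by
  induction t with
  | leaf o =>
    simp only [map, Out]
    constructor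
    · intro h; exact ⟨o, rfl, h.symm⟩
    · rintro ⟨o', rfl, h⟩; exact h.symm
  | node v next ih => exact ih (x v)
  | query m g next ih =>
    simp only [map, Out, ih]
    constructor
    · rintro ⟨z, hz, o, ho, h⟩; exact ⟨o, ⟨z, hz, ho⟩, h⟩
    · rintro ⟨o, ⟨z, hz, ho⟩, h⟩; exact ⟨z, hz, o, ho, h⟩

theorem cost_map (f : O → P) (t : Turing T X O) : (t.map f).cost = t.cost := by
  induction t with
  | leaf o => rfl
  | node v next ih => simp only [map, cost, ih]
  | query m g next ih => simp only [map, cost, ih]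

/-- A decision tree as a Turing reduction without queries. -/
def ofDT : DT X O → Turing T X O
  | DT.leaf o => leaf o
  | DT.node v next => node v fun b => ofDT (next b)

theorem out_ofDT (t : DT X O) (x : X → Bool) (o : O) :
    (ofDT (T := T) t).Out x o ↔ o = t.eval x := by
  induction t with
  | leaf o' => exact Iff.rfl
  | node v next ih => exact ih (x v)

theorem cost_ofDT (t : DT X O) : (ofDT (T := T) t).cost = t.depth := by
  induction t with
  | leaf o' => rfl
  | node v next ih => simp only [ofDT, cost, DT.depth, ih]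

end Turing

/-- Projections are many-one reductions. -/
theorem Projects.reduces {S T : Problem} (h : Projects S T) : Reduces S T := by
  obtain ⟨c, hc⟩ := h
  refine ⟨c + 1, fun n => ?_⟩
  obtain ⟨m, hm, f, g, hfg⟩ := hc n
  have h1 : 1 ≤ pl (c + 1) n := by unfold pl; omega
  refine ⟨m, hm.trans (Nat.pow_le_pow_right (by norm_num) (pl_mono_left (Nat.le_succ c) n)),
    fun i => Sum.elim (fun v => DT.node v DT.leaf) DT.leaf (f i), fun z => DT.leaf (g z), ?_, ?_, ?_⟩
  · intro i
    show (Sum.elim (fun v => DT.node v DT.leaf) DT.leaf (f i) : DT (Fin n) Bool).depth ≤ _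
    rcases f i with v | b
    · exact le_trans (by simp [DT.depth]) h1
    · simp [DT.depth]
  · intro z; simp [DT.depth]
  · intro x z hz
    apply hfg x z
    have h2 : (fun i => (Sum.elim (fun v => DT.node v DT.leaf) DT.leaf (f i) :
        DT (Fin n) Bool).eval x) = fun i => Sum.elim x id (f i) := by
      funext i
      rcases f i with v | b <;> rfl
    rw [← h2]
    exact hz

/-- Many-one reductions are Turing reductions. -/
theorem Reduces.turing {S T : Problem} (h : Reduces S T) : TuringReduces S T := by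
  obtain ⟨c, hc⟩ := h
  have hbd : Bd (fun n => Nat.log 2 n) (fun n => 1 + 3 * pl c n) :=
    (Bd.const _ 1).add ((Bd.const _ 3).mul (Bd.pl_self c))
  obtain ⟨k, hk⟩ := hbd.exists_pl
  refine ⟨k, fun n => ?_⟩
  obtain ⟨m, hm, f, g, hf, hg, hfg⟩ := hc n
  refine ⟨Turing.query m f (fun z => Turing.ofDT (g z)), ?_, ?_⟩
  · refine le_trans ?_ (hk n)
    simp only [Turing.cost, Turing.cost_ofDT]
    have h1 : Nat.log 2 m ≤ pl c n := log_le_of_le hm
    have h2 : Finset.univ.sup (fun i => (f i).depth) ≤ pl c n :=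
      Finset.sup_le fun i _ => hf i
    have h3 : Finset.univ.sup (fun z => (g z).depth) ≤ pl c n :=
      Finset.sup_le fun z _ => hg z
    omega
  · rintro x o ⟨z, hz, ho⟩
    rw [Turing.out_ofDT] at ho
    subst ho
    exact hfg x z hz

end Pool.Agent.H88.BB
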