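import Pool.Agent.H88.BB.Proj
import Pool.Agent.H88.BB.Narrow
import Pool.Agent.H88.BB.Sim
import Pool.Agent.H88.BB.Typed

/-!
# A Turing-complete problem puts the complements of NP languages into NP
-/

namespace Pool.Agent.H88.BB

open Classical

section

variable {n : ℕ} {W Z : Type}

/-- The instance `x` of the language as a search problem: find a violated local condition; if
`x` is in the language there is an extra solution. -/
noncomputable def chkS (L : Set (Fin n → Bool)) (chk : Z → DT (Fin n ⊕ W) Bool)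
    (x : Fin n → Bool) : Option Z → DT (Option W) Bool
  | none => DT.leaf (decide (x ∈ L))
  | some z => ((chk z).subst (Sum.elim (fun i => DT.leaf (x i))
      (fun w => DT.node (some w) DT.leaf))).map not

theorem eval_chkS_some (L : Set (Fin n → Bool)) (chk : Z → DT (Fin n ⊕ W) Bool)
    (x : Fin n → Bool) (z : Z) (a : Option W → Bool) :
    (chkS L chk x (some z)).eval a = !((chk z).eval (Sum.elim x (fun w => a (some w)))) := by
  simp only [chkS, DT.eval_map, DT.eval_subst]
  congr 2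
  funext v
  rcases v with i | w <;> rfl

theorem depth_chkS (L : Set (Fin n → Bool)) (chk : Z → DT (Fin n ⊕ W) Bool)
    (hchk : ∀ z, (chk z).depth ≤ 3) (x : Fin n → Bool) (z : Option Z) :
    (chkS L chk x z).depth ≤ 3 := by
  cases z with
  | none => simp [chkS, DT.depth]
  | some z =>
    simp only [chkS]
    refine (DT.depth_map_le _ _).trans (DT.depth_subst_le _ _ 3 1 (hchk z) (fun v => ?_))
    rcases v with i | w <;> simp [DT.depth]

theorem total_chkS (L : Set (Fin n → Bool)) (chk : Z → DT (Fin n ⊕ W) Bool)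
    (hL : ∀ x, x ∈ L ↔ ∃ w : W → Bool, ∀ z, (chk z).eval (Sum.elim x w) = true)
    (x : Fin n → Bool) (a : Option W → Bool) : ∃ z, (chkS L chk x z).eval a = true := by
  by_cases hx : x ∈ L
  · exact ⟨none, by simp [chkS, DT.eval, hx]⟩
  · by_contra hcon
    push Not at hcon
    apply hx
    rw [hL]
    refine ⟨fun w => a (some w), fun z => ?_⟩
    have := hcon (some z)
    rw [eval_chkS_some] at this
    simpa using this

end

/-- The search problem of the instance `x` is solved with cost at most `D` relative to `T`. -/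
def Red (T : Problem) (L : Language) {W Z : ℕ → Type} [∀ n, Fintype (W n)]
    (chk : ∀ n, Z n → DT (Fin n ⊕ W n) Bool) (n : ℕ) (x : Fin n → Bool) (D : ℕ) : Prop :=
  ∃ t : Turing T (Fin (idx (fun n => Option (W n)) n)) (Option (Z n)), t.cost ≤ D ∧
    ∀ y o, t.Out y o →
      (chkS (L n) (chk n) x o).eval (fun v => y (emb (fun n => Option (W n)) n v)) = true

theorem Red.mono {T : Problem} {L : Language} {W Z : ℕ → Type} [∀ n, Fintype (W n)]
    {chk : ∀ n, Z n → DT (Fin n ⊕ W n) Bool} {n : ℕ} {x : Fin n → Bool} {D D' : ℕ} (h : D ≤ D')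
    (hr : Red T L chk n x D) : Red T L chk n x D' := by
  obtain ⟨t, ht, ht'⟩ := hr
  exact ⟨t, ht.trans h, ht'⟩

/-- Reading all variables solves everything. -/
theorem red_trivial (T : Problem) (L : Language) {W Z : ℕ → Type} [∀ n, Fintype (W n)]
    (chk : ∀ n, Z n → DT (Fin n ⊕ W n) Bool)
    (hLx : ∀ n x, x ∈ L n ↔ ∃ w : W n → Bool, ∀ z, (chk n z).eval (Sum.elim x w) = true)
    (n : ℕ) (x : Fin n → Bool) : Red T L chk n x (idx (fun n => Option (W n)) n) := by
  have hsol : ∀ y : Fin (idx (fun n => Option (W n)) n) → Bool, ∃ z : Option (Z n),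
      (chkS (L n) (chk n) x z).eval (fun v => y (emb (fun n => Option (W n)) n v)) = true :=
    fun y => total_chkS (L n) (chk n) (hLx n) x _
  choose sol hsol using hsol
  refine ⟨Turing.ofDT ((DT.readVec _ id).map sol), ?_, ?_⟩
  · rw [Turing.cost_ofDT]
    exact (DT.depth_map_le _ _).trans (DT.depth_readVec _ _)
  · intro y o ho
    rw [Turing.out_ofDT, DT.eval_map, DT.eval_readVec] at ho
    subst ho
    exact hsol y

/-- The problem made of one instance for each length. -/
theorem exists_instances (L : Language) {W Z : ℕ → Type} [∀ n, Fintype (W n)]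
    [∀ n, Fintype (Z n)] (chk : ∀ n, Z n → DT (Fin n ⊕ W n) Bool) (d : ℕ → ℕ)
    (hbd : Bd (fun n => Nat.log 2 n) d) (hZ : ∀ n, Fintype.card (Z n) ≤ 2 ^ d n)
    (hchk : ∀ n z, (chk n z).depth ≤ 3)
    (hLx : ∀ n x, x ∈ L n ↔ ∃ w : W n → Bool, ∀ z, (chk n z).eval (Sum.elim x w) = true)
    (x0 : ∀ n, Fin n → Bool) :
    ∃ P : Problem, ∀ (T : Problem) (c : ℕ),
      (∀ m, ∃ t : Turing T (Fin m) (Fin (P.sol m)),
        t.cost ≤ pl c m ∧ ∀ x o, t.Out x o → P.IsSol m x o) →
      ∀ n, Red T L chk n (x0 n) (pl c (idx (fun n => Option (W n)) n)) := by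
  let V : ℕ → Type := fun n => Option (W n)
  have hidx : ∀ n, n ≤ idx V n := fun n => Nat.left_le_pair _ _
  obtain ⟨k, hk⟩ := (hbd.add_const 4).exists_pl
  obtain ⟨P, hP⟩ := exists_problem V (fun n => Option (Z n)) (fun n => chkS (L n) (chk n) (x0 n))
    (fun n a => total_chkS (L n) (chk n) (hLx n) (x0 n) a) (fun n => d n + 4)
    (fun n => by
      have h2 := hZ n
      have h3 : 1 ≤ 2 ^ d n := Nat.one_le_two_pow
      simp only [Fintype.card_option]
      rw [pow_add]; omega)
    (fun n z => (depth_chkS _ _ (hchk n) _ _).trans (by omega)) k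
    (fun n => (hk n).trans (pl_mono_right k (hidx n)))
  refine ⟨P, fun T c hc n => ?_⟩
  obtain ⟨t, ht, ht'⟩ := hc (idx V n)
  obtain ⟨zi, hzi⟩ := hP n
  refine ⟨t.map zi, (Turing.cost_map _ _).le.trans ht, ?_⟩
  intro y o ho
  obtain ⟨o', ho', rfl⟩ := (Turing.out_map _ _ _ _).1 ho
  have h1 := hzi o' y
  have h2 := ht' y o' ho'
  rw [Problem.IsSol, h1] at h2
  exact h2

theorem InNP_compl_of_red (T : Problem) (L : Language) {W Z : ℕ → Type} [∀ n, Fintype (W n)]
    [∀ n, Fintype (Z n)] (chk : ∀ n, Z n → DT (Fin n ⊕ W n) Bool) (d : ℕ → ℕ)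
    (hbd : Bd (fun n => Nat.log 2 n) d) (hW : ∀ n, Fintype.card (W n) ≤ 2 ^ d n)
    (hZ : ∀ n, Fintype.card (Z n) ≤ 2 ^ d n) (hchk : ∀ n z, (chk n z).depth ≤ 3)
    (hLx : ∀ n x, x ∈ L n ↔ ∃ w : W n → Bool, ∀ z, (chk n z).eval (Sum.elim x w) = true)
    (c : ℕ) (hred : ∀ n x, Red T L chk n x (pl c (idx (fun n => Option (W n)) n))) :
    InNP (fun n => (L n)ᶜ) := by
  let V : ℕ → Type := fun n => Option (W n)
  -- bounds for the index
  have hmle : ∀ n, idx V n ≤ 2 ^ (2 * (Nat.log 2 n + d n + 3)) := by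
    intro n
    apply pair_le_two_pow'
    · calc n + 1 ≤ 2 ^ (Nat.log 2 n + 1) := lt_two_pow_log n
        _ ≤ _ := Nat.pow_le_pow_right (by norm_num) (by omega)
    · have h1 : Fintype.card (V n) = Fintype.card (W n) + 1 := by simp [V]
      rw [h1]
      have h2 := hW n
      have h3 : 1 ≤ 2 ^ d n := Nat.one_le_two_pow
      calc Fintype.card (W n) + 1 + 1 ≤ 2 ^ (d n + 2) := by rw [pow_add]; omega
        _ ≤ _ := Nat.pow_le_pow_right (by norm_num) (by omega)
  have hbm : Bd (fun n => Nat.log 2 n) (fun n => Nat.log 2 (idx V n)) :=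
    Bd.log ((Bd.const _ 2).mul (((Bd.self _).add hbd).add_const 3)) hmle
  let D : ℕ → ℕ := fun n => pl c (idx V n)
  have hbD : Bd (fun n => Nat.log 2 n) D := Bd.pl c hbm
  -- parameters
  let P0 : ℕ → ℕ := fun n => pl T.k (2 ^ (D n + 1))
  let B : ℕ → ℕ := fun n => 2 ^ (P0 n + 1)
  let M : ℕ → ℕ := fun n => 2 ^ (D n + 1)
  let E : ℕ → ℕ := fun n => d n + Nat.log 2 (idx V n) + D n + 5
  let Lb : ℕ → ℕ := fun n => Nat.log 2 (idx V n) + 1
  have hB2 : ∀ n, 2 ≤ B n := fun n => by
    calc 2 = 2 ^ 1 := rfl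
      _ ≤ 2 ^ (P0 n + 1) := Nat.pow_le_pow_right (by norm_num) (by omega)
  have hidx1 : ∀ n, 1 ≤ idx V n := fun n =>
    le_trans (by simp [V]) (card_le_idx V n)
  -- codes
  have hcardI : ∀ n, Fintype.card (Option (Z n) ⊕ (Fin (idx V n) ⊕ Fin (M n))) ≤ 2 ^ E n := by
    intro n
    simp only [Fintype.card_sum, Fintype.card_option, Fintype.card_fin]
    have h1 := hZ n
    have h2 := lt_two_pow_log (idx V n)
    have h3 : 2 ^ d n ≤ 2 ^ (d n + Nat.log 2 (idx V n) + D n + 1) :=
      Nat.pow_le_pow_right (by norm_num) (by omega)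
    have h4 : 2 ^ (Nat.log 2 (idx V n) + 1) ≤ 2 ^ (d n + Nat.log 2 (idx V n) + D n + 1) :=
      Nat.pow_le_pow_right (by norm_num) (by omega)
    have h5 : M n ≤ 2 ^ (d n + Nat.log 2 (idx V n) + D n + 1) :=
      Nat.pow_le_pow_right (by norm_num) (by omega)
    have h6 : 1 ≤ 2 ^ (d n + Nat.log 2 (idx V n) + D n + 1) := Nat.one_le_two_pow
    have h7 : 2 ^ E n = 2 ^ (d n + Nat.log 2 (idx V n) + D n + 1) * 2 ^ 4 := by
      rw [← pow_add]
    rw [h7]
    omega
  have hinh : ∀ n, Nonempty (Option (Z n) ⊕ (Fin (idx V n) ⊕ Fin (M n))) := fun n =>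
    ⟨Sum.inl none⟩
  have hinhX : ∀ n, Nonempty (Fin (idx V n)) := fun n => ⟨⟨0, hidx1 n⟩⟩
  have hcodeI : ∀ n, ∃ (enc : Option (Z n) ⊕ (Fin (idx V n) ⊕ Fin (M n)) → (Fin (E n) → Bool))
      (dec : (Fin (E n) → Bool) → Option (Z n) ⊕ (Fin (idx V n) ⊕ Fin (M n))),
      ∀ a, dec (enc a) = a := fun n => exists_code _ _ (hcardI n)
  have hcodeX : ∀ n, ∃ (enc : Fin (idx V n) → (Fin (Lb n) → Bool))
      (dec : (Fin (Lb n) → Bool) → Fin (idx V n)), ∀ a, dec (enc a) = a := fun n =>
    exists_code _ _ (by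
      simp only [Fintype.card_fin]
      exact (lt_two_pow_log (idx V n)).le)
  choose encI decI hI using hcodeI
  choose encX decX hX using hcodeX
  -- the verifier of the complement
  let U : ℕ → Type := fun n => UT (D n) (B n) (M n) (Lb n) (E n)
  let SV : ∀ n, Option (Z n) → DT ((Fin n ⊕ U n) ⊕ Fin (idx V n)) Bool := fun n o =>
    match o with
    | none => DT.leaf false
    | some z => ((chk n z).rename (Sum.elim (fun i => Sum.inl (Sum.inl i))
        (fun w => Sum.inr (emb V n (some w))))).map not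
  have hSVsome : ∀ n z (x : Fin n → Bool) (u : U n → Bool) (a : Fin (idx V n) → Bool),
      (SV n (some z)).eval (Sum.elim (Sum.elim x u) a) =
        !((chk n z).eval (Sum.elim x (fun w => a (emb V n (some w))))) := by
    intro n z x u a
    simp only [SV, DT.eval_map, DT.eval_rename]
    congr 2
    funext v
    rcases v with i | w <;> rfl
  let bitF : ∀ n, Bool → Fin (B n) := fun n b => if b = true then ⟨1, hB2 n⟩ else ⟨0, by
    have := hB2 n; omega⟩
  have hbit : ∀ n b, decide ((bitF n b).1 ≠ 0) = b := by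
    intro n b
    cases b <;> simp [bitF]
  let z0 : ∀ n, Fin (B n) := fun n => ⟨0, by have := hB2 n; omega⟩
  let m0 : ∀ n, Fin (M n) := fun n => ⟨0, Nat.pow_pos (by norm_num)⟩
  let tree : ∀ n, (Fin (D n + 1) → Fin (B n)) → DT ((Fin n ⊕ U n) ⊕ Fin (idx V n)) Bool :=
    fun n ζ => sim T (fun u => Sum.inl (Sum.inr u)) (fun v => Sum.inr v) (SV n) (decI n) (decX n)
      (bitF n) (D n + 1) 0 (fun _ => z0 n) ζ
  have hlogM : ∀ n, ∀ m < M n, pl T.k m ≤ P0 n := fun n m hm => pl_mono_right _ hm.le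
  have hsolB : ∀ n, ∀ m < M n, T.sol m ≤ B n := by
    intro n m hm
    refine (T.sol_le m).trans (Nat.pow_le_pow_right (by norm_num) ?_)
    have := hlogM n m hm
    omega
  have hver : ∀ n, ∀ m < M n, ∀ z, (T.ver m z).depth ≤ P0 n := fun n m hm z =>
    (T.depth_le m z).trans (hlogM n m hm)
  have hbP0 : Bd (fun n => Nat.log 2 n) P0 := by
    apply Bd.pl
    exact Bd.log (f := fun n => D n + 1) (hbD.add_const 1) (fun n => le_refl _)
  let d' : ℕ → ℕ := fun n => 4 * D n + (P0 n + 1) * (D n + 1) + E n + Lb n + 3 +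
    ((D n + 1) * (E n + 1 + P0 n * (D n * (Lb n + 1) + 1)) + 3)
  have hbE : Bd (fun n => Nat.log 2 n) E := ((hbd.add hbm).add hbD).add_const 5
  have hbL : Bd (fun n => Nat.log 2 n) Lb := hbm.add_const 1
  have hbd' : Bd (fun n => Nat.log 2 n) d' := by
    refine Bd.add ((((((Bd.const _ 4).mul hbD).add ((hbP0.add_const 1).mul
      (hbD.add_const 1))).add hbE).add hbL).add_const 3) ?_
    exact ((hbD.add_const 1).mul ((hbE.add_const 1).add (hbP0.mul
      ((hbD.mul (hbL.add_const 1)).add_const 1)))).add_const 3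
  have hcardU : ∀ n, Fintype.card (U n) ≤ 2 ^ d' n := by
    intro n
    have hD1 : D n + 1 ≤ 2 ^ D n := Nat.lt_two_pow_self
    have hE1 : E n ≤ 2 ^ E n := Nat.lt_two_pow_self.le
    have hL1 : Lb n ≤ 2 ^ Lb n := Nat.lt_two_pow_self.le
    have hH : Fintype.card (Hist (D n) (B n)) ≤ 2 ^ (D n + (P0 n + 1) * (D n + 1)) := by
      simp only [Fintype.card_prod, Fintype.card_fin, Fintype.card_fun]
      have hBp : B n ^ (D n + 1) = 2 ^ ((P0 n + 1) * (D n + 1)) := by
        simp only [B]; rw [← pow_mul]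
      rw [hBp, pow_add 2 (D n)]
      exact Nat.mul_le_mul_right _ hD1
    simp only [U, UT]
    rw [Fintype.card_sum, card_Tab]
    simp only [Fintype.card_prod (Hist (D n) (B n)), Fintype.card_fin]
    set h := Fintype.card (Hist (D n) (B n))
    have hQ : h * M n ≤ 2 ^ (D n + (P0 n + 1) * (D n + 1) + (D n + 1)) := by
      rw [pow_add]; exact Nat.mul_le_mul hH (le_refl _)
    set X := 2 ^ (D n + (P0 n + 1) * (D n + 1) + (D n + 1) + 2 * D n + E n + Lb n) with hXdef
    have t1 : h * E n ≤ X := by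
      calc h * E n ≤ 2 ^ (D n + (P0 n + 1) * (D n + 1)) * 2 ^ E n := Nat.mul_le_mul hH hE1
        _ = 2 ^ (D n + (P0 n + 1) * (D n + 1) + E n) := by rw [← pow_add]
        _ ≤ X := Nat.pow_le_pow_right (by norm_num) (by omega)
    have t2 : h * M n * ((D n + 1) * 2 ^ D n * Lb n) ≤ X := by
      calc h * M n * ((D n + 1) * 2 ^ D n * Lb n)
          ≤ 2 ^ (D n + (P0 n + 1) * (D n + 1) + (D n + 1)) * (2 ^ D n * 2 ^ D n * 2 ^ Lb n) :=
            Nat.mul_le_mul hQ (Nat.mul_le_mul (Nat.mul_le_mul_right _ hD1) hL1)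
        _ = 2 ^ (D n + (P0 n + 1) * (D n + 1) + (D n + 1) + (D n + D n + Lb n)) := by
            rw [← pow_add, ← pow_add, ← pow_add]
        _ ≤ X := Nat.pow_le_pow_right (by norm_num) (by omega)
    have t3 : h * M n * (2 ^ D n * 1) ≤ X := by
      calc h * M n * (2 ^ D n * 1)
          ≤ 2 ^ (D n + (P0 n + 1) * (D n + 1) + (D n + 1)) * 2 ^ D n :=
            Nat.mul_le_mul hQ (by omega)
        _ = 2 ^ (D n + (P0 n + 1) * (D n + 1) + (D n + 1) + D n) := by rw [← pow_add]
        _ ≤ X := Nat.pow_le_pow_right (by norm_num) (by omega)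
    calc h * E n + (h * M n * ((D n + 1) * 2 ^ D n * Lb n) + h * M n * (2 ^ D n * 1))
        ≤ X * 2 ^ 2 := by omega
      _ = 2 ^ (D n + (P0 n + 1) * (D n + 1) + (D n + 1) + 2 * D n + E n + Lb n + 2) := by
          rw [← pow_add]
      _ ≤ 2 ^ d' n := Nat.pow_le_pow_right (by norm_num) (by simp only [d']; omega)
  refine InNP_of (fun n => (L n)ᶜ) U (fun n => Fin (D n + 1) → Fin (B n))
    (fun n => Fin (idx V n)) tree d' hbd' hcardU ?_ ?_ ?_
  · intro n
    simp only [Fintype.card_fun, Fintype.card_fin]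
    simp only [B]
    rw [← pow_mul]
    exact Nat.pow_le_pow_right (by norm_num) (by simp only [d']; omega)
  · intro n ζ
    refine (depth_sim T _ _ (SV n) (decI n) (decX n) (bitF n) (P0 n) 3 (hver n) ?_ _ _ _ _).trans ?_
    · intro o
      cases o with
      | none => simp [SV, DT.depth]
      | some z =>
        simp only [SV]
        exact (DT.depth_map_le _ _).trans ((DT.depth_rename_le _ _).trans (hchk n z))
    · simp only [d']; omega
  · intro n x
    constructor
    · intro hx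
      obtain ⟨t, ht, ht'⟩ := hred n x
      have ht0 : t.cost ≤ D n := ht
      refine ⟨codeT (encI n) (encX n) ⟨0, hidx1 n⟩ (z0 n) (m0 n) t, fun ζ a => ?_⟩
      apply sim_complete T (fun u => Sum.inl (Sum.inr u)) (fun v => Sum.inr v) (SV n) (decI n)
        (decX n) (bitF n) (encI n) (hI n) (encX n) (hX n) ⟨0, hidx1 n⟩ (z0 n) (m0 n) (le_refl _)
        (hbit n) t _ (fun u => rfl) (D n + 1) 0 _ ζ (by omega)
      · simp only [followT]; omega
      · intro o ho
        have h1 := ht' _ o ho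
        cases o with
        | none =>
          exfalso
          simp only [chkS, DT.eval, decide_eq_true_eq] at h1
          exact hx h1
        | some z =>
          rw [eval_chkS_some] at h1
          rw [hSVsome]
          exact h1
    · rintro ⟨u, hu⟩ hx
      obtain ⟨w, hw⟩ := (hLx n x).1 hx
      let a : Fin (idx V n) → Bool := fun i =>
        if h : ∃ w', emb V n (some w') = i then w h.choose else false
      have ha : ∀ w', a (emb V n (some w')) = w w' := by
        intro w'
        have h : ∃ w'', emb V n (some w'') = emb V n (some w') := ⟨w', rfl⟩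
        simp only [a, h, dif_pos]
        have h2 := h.choose_spec
        have h3 := Option.some_injective _ (embLE_injective (V n) (card_le_idx V n) h2)
        rw [h3]
      obtain ⟨o, ho⟩ := sim_sound T (fun u => Sum.inl (Sum.inr u)) (fun v => Sum.inr v) (SV n)
        (decI n) (decX n) (bitF n) (hsolB n) (z0 n) (Sum.elim (Sum.elim x u) a) (D n + 1) 0
        (fun _ => z0 n) (fun ζ => hu ζ a)
      cases o with
      | none => exact absurd ho (by simp [SV, DT.eval])
      | some z =>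
        rw [hSVsome] at ho
        simp only [ha] at ho
        rw [hw z] at ho
        exact absurd ho (by simp)

/-- Choice of distinct elements in infinite sets. -/
theorem exists_strictMono_mem (A : ℕ → Set ℕ) (hA : ∀ i, (A i).Infinite) :
    ∃ f : ℕ → ℕ, StrictMono f ∧ ∀ i, f i ∈ A i := by
  have h0 : ∀ i m, ∃ k ∈ A i, m < k := fun i m => (hA i).exists_gt m
  choose g hg hg' using h0
  let f : ℕ → ℕ := fun i => Nat.rec (g 0 0) (fun i r => g (i + 1) r) i
  refine ⟨f, strictMono_nat_of_lt_succ fun i => hg' (i + 1) (f i), fun i => ?_⟩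
  cases i with
  | zero => exact hg 0 0
  | succ i => exact hg (i + 1) (f i)

theorem jointly_complete_imp (T : ℕ → Problem) (hT : ∀ S, ∃ j, TuringReduces S (T j))
    (L : Language) (hL : InNP L) : InNP (fun n => (L n)ᶜ) := by
  obtain ⟨W, Z, iW, iZ, chk, d, hbd, hW, hZ, hchk, hLx⟩ := shallow_of_InNP L hL
  let V : ℕ → Type := fun n => Option (W n)
  by_cases hgood : ∃ j c, ∀ n x, Red (T j) L chk n x (pl c (idx V n))
  · obtain ⟨j, c, hred⟩ := hgood
    exact InNP_compl_of_red (T j) L chk d hbd hW hZ hchk hLx c hred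
  · exfalso
    push Not at hgood
    have hinf : ∀ i : ℕ, {n : ℕ | ∃ x, ¬ Red (T (Nat.unpair i).1) L chk n x
        (pl (Nat.unpair i).2 (idx V n))}.Infinite := by
      intro i hfin
      obtain ⟨N, hN⟩ := hfin.bddAbove
      let c' := (Nat.unpair i).2 + ∑ n ∈ Finset.range (N + 1), idx V n
      obtain ⟨n, x, hnx⟩ := hgood (Nat.unpair i).1 c'
      have hn : ∃ x, ¬ Red (T (Nat.unpair i).1) L chk n x (pl (Nat.unpair i).2 (idx V n)) :=
        ⟨x, fun h => hnx (h.mono (pl_mono_left (Nat.le_add_right _ _) _))⟩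
      have hnN : n ≤ N := hN hn
      apply hnx
      apply (red_trivial (T (Nat.unpair i).1) L chk hLx n x).mono
      have h1 : idx V n ≤ ∑ n ∈ Finset.range (N + 1), idx V n :=
        Finset.single_le_sum (f := idx V) (fun _ _ => Nat.zero_le _)
          (Finset.mem_range.2 (by omega))
      have h2 : c' ≤ pl c' (idx V n) := by unfold pl; omega
      exact (h1.trans (Nat.le_add_left _ _)).trans h2
    obtain ⟨f, hf, hfm⟩ := exists_strictMono_mem _ hinf
    have hx0 : ∀ n, ∃ x : Fin n → Bool, ∀ i, f i = n →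
        ¬ Red (T (Nat.unpair i).1) L chk n x (pl (Nat.unpair i).2 (idx V n)) := by
      intro n
      by_cases h : ∃ i, f i = n
      · obtain ⟨i, rfl⟩ := h
        obtain ⟨x, hx⟩ := hfm i
        refine ⟨x, fun i' hi' => ?_⟩
        rw [hf.injective hi']
        exact hx
      · exact ⟨fun _ => false, fun i hi => absurd ⟨i, hi⟩ h⟩
    choose x0 hx0 using hx0
    obtain ⟨P, hP⟩ := exists_instances L chk d hbd hZ hchk hLx x0
    obtain ⟨j, c, hc⟩ := hT P
    have h1 := hP (T j) c hc (f (Nat.pair j c))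
    have h2 := hx0 (f (Nat.pair j c)) (Nat.pair j c) rfl
    rw [Nat.unpair_pair] at h2
    exact h2 h1

end Pool.Agent.H88.BB
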