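import Pool.Agent.H88.BB.Proj
import Pool.Agent.H88.BB.Narrow
import Pool.Agent.H88.BB.Code
import Pool.Agent.H88.BB.Typed
import Pool.Agent.H88.BB.Sim

/-!
# If complements of NP languages are in NP then there is a complete problem
-/

namespace Pool.Agent.H88.BB

open Classical

/-- Bits coding `2^t` decision trees of depth `t` in `2^t` variables. -/
abbrev Fb (t : ℕ) : Type := Tab (Fin (2 ^ t)) t t 1

theorem card_Fb (t : ℕ) : Fintype.card (Fb t) = 2 ^ t * ((t + 1) * 2 ^ t * t) + 2 ^ t * (2 ^ t * 1) := by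
  rw [card_Tab]; simp

theorem le_card_Fb (t : ℕ) : 2 ^ t ≤ Fintype.card (Fb t) := by
  rw [card_Fb]
  have : 1 ≤ 2 ^ t := Nat.one_le_two_pow
  calc 2 ^ t = 2 ^ t * 1 := (mul_one _).symm
    _ ≤ 2 ^ t * (2 ^ t * 1) := Nat.mul_le_mul_left _ (by omega)
    _ ≤ _ := Nat.le_add_left _ _

theorem card_Fb_le (t : ℕ) : Fintype.card (Fb t) ≤ 2 ^ (4 * t + 1) := by
  rw [card_Fb]
  have h1 : t + 1 ≤ 2 ^ t := Nat.lt_two_pow_self
  have h2 : t ≤ 2 ^ t := by omega
  have h3 : 2 ^ t * ((t + 1) * 2 ^ t * t) ≤ 2 ^ (4 * t) := by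
    calc 2 ^ t * ((t + 1) * 2 ^ t * t) ≤ 2 ^ t * (2 ^ t * 2 ^ t * 2 ^ t) :=
          Nat.mul_le_mul_left _ (Nat.mul_le_mul (Nat.mul_le_mul_right _ h1) h2)
      _ = 2 ^ (4 * t) := by rw [← pow_add, ← pow_add, ← pow_add]; congr 1; ring
  have h4 : 2 ^ t * (2 ^ t * 1) ≤ 2 ^ (4 * t) := by
    rw [mul_one, ← pow_add]
    exact Nat.pow_le_pow_right (by norm_num) (by omega)
  rw [pow_succ]
  omega

/-- The parameter `t` used at index `n`. -/
noncomputable def tt (n : ℕ) : ℕ :=
  if Fintype.card (Fb (Nat.unpair n).1) ≤ n then (Nat.unpair n).1 else 0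

theorem tt_le_log (n : ℕ) : tt n ≤ Nat.log 2 n := by
  unfold tt
  split_ifs with h
  · have h1 := (le_card_Fb (Nat.unpair n).1).trans h
    have hn : n ≠ 0 := by
      have : 1 ≤ 2 ^ (Nat.unpair n).1 := Nat.one_le_two_pow
      omega
    exact (Nat.le_log_iff_pow_le (by norm_num) hn).2 h1
  · exact Nat.zero_le _

theorem tt_idx (t : ℕ) : tt (idx Fb t) = t := by
  unfold tt idx
  simp only [Nat.unpair_pair]
  rw [if_pos (Nat.right_le_pair _ _)]

section

variable (decX : ∀ t, (Fin t → Bool) → Fin (2 ^ t))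

/-- Evaluation of the coded trees. -/
noncomputable def ctr (t : ℕ) (z : Fin (2 ^ t)) : DT (Fb t ⊕ Fin (2 ^ t)) Bool :=
  ctree (decX t) decB z t 0 (fun _ => false)

theorem depth_ctr (t : ℕ) (z : Fin (2 ^ t)) : (ctr decX t z).depth ≤ t * (t + 1) + 1 :=
  depth_ctree _ _ _ _ _ _

/-- Codes of search problems which are not total. -/
def NotTotal : Language := fun n =>
  {y | ∃ t, t = tt n ∧ ∃ h : Fintype.card (Fb t) ≤ n, ∃ a : Fin (2 ^ t) → Bool, ∀ z,
    (ctr decX t z).eval (Sum.elim (fun v => y (embLE (Fb t) h v)) a) = false}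

theorem NotTotal_InNP : InNP (NotTotal decX) := by
  have hb : Bd (fun n => Nat.log 2 n) tt := (Bd.self _).mono tt_le_log
  refine InNP_of (NotTotal decX) (fun n => Fin (2 ^ tt n)) (fun n => Fin (2 ^ tt n))
    (fun _ => Unit)
    (fun n z => if h : Fintype.card (Fb (tt n)) ≤ n then
      ((ctr decX (tt n) z).rename (Sum.elim (fun v => Sum.inl (Sum.inl (embLE (Fb (tt n)) h v)))
        (fun v => Sum.inl (Sum.inr v)))).map not else DT.leaf false)
    (fun n => tt n * (tt n + 1) + 1 + tt n) (((hb.mul (hb.add_const 1)).add_const 1).add hb)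
    (fun n => by
      simp only [Fintype.card_fin]
      exact Nat.pow_le_pow_right (by norm_num) (by omega))
    (fun n => by
      simp only [Fintype.card_fin]
      exact Nat.pow_le_pow_right (by norm_num) (by omega)) ?_ ?_
  · intro n z
    split_ifs with h
    · exact (DT.depth_map_le _ _).trans ((DT.depth_rename_le _ _).trans
        ((depth_ctr decX _ z).trans (by omega)))
    · simp [DT.depth]
  · intro n y
    constructor
    · rintro ⟨t, rfl, h, a, ha⟩
      refine ⟨a, fun z _ => ?_⟩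
      rw [dif_pos h, DT.eval_map, DT.eval_rename, Bool.not_eq_true']
      refine Eq.trans ?_ (ha z)
      congr 1
      funext v
      rcases v with v | v <;> rfl
    · rintro ⟨a, ha⟩
      have h : Fintype.card (Fb (tt n)) ≤ n := by
        by_contra h
        have := ha ⟨0, Nat.pow_pos (by norm_num)⟩ (fun _ => false)
        rw [dif_neg h] at this
        exact absurd this (by simp [DT.eval])
      refine ⟨tt n, rfl, h, a, fun z => ?_⟩
      have := ha z (fun _ => false)
      rw [dif_pos h, DT.eval_map, DT.eval_rename, Bool.not_eq_true'] at this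
      refine Eq.trans ?_ this
      congr 1
      funext v
      rcases v with v | v <;> rfl

end

theorem exists_complete (h3 : ∀ L, InNP L → InNP (fun n => (L n)ᶜ)) :
    ∃ P : Problem, ∀ S, Projects S P := by
  have hcodeX : ∀ t, ∃ (enc : Fin (2 ^ t) → (Fin t → Bool)) (dec : (Fin t → Bool) → Fin (2 ^ t)),
      ∀ a, dec (enc a) = a := fun t => exists_code _ _ (by simp)
  choose encX decX hX using hcodeX
  obtain ⟨W, Z, iW, iZ, chk, d, hbd, hW, hZ, hchk, hLx⟩ :=
    shallow_of_InNP _ (h3 _ (NotTotal_InNP decX))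
  -- the typed problem
  let V : ℕ → Type := fun t => Fb t ⊕ (W (idx Fb t) ⊕ Fin (2 ^ t))
  let Y : ℕ → Type := fun t => Z (idx Fb t) ⊕ Fin (2 ^ t)
  let back : ∀ t, Fin (idx Fb t) → DT (V t) Bool := fun t i =>
    if h : ∃ u, emb Fb t u = i then DT.node (Sum.inl h.choose) DT.leaf else DT.leaf false
  let chkT : ∀ t, Y t → DT (V t) Bool := fun t z =>
    match z with
    | Sum.inl z => ((chk (idx Fb t) z).subst (Sum.elim (back t)
        (fun w => DT.node (Sum.inr (Sum.inl w)) DT.leaf))).map not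
    | Sum.inr z => (ctr decX t z).rename (Sum.elim Sum.inl (fun v => Sum.inr (Sum.inr v)))
  let yF : ∀ t, (Fb t → Bool) → Fin (idx Fb t) → Bool := fun t F i =>
    if h : ∃ u, emb Fb t u = i then F h.choose else false
  have hyF : ∀ t F u, yF t F (emb Fb t u) = F u := by
    intro t F u
    have h : ∃ u', emb Fb t u' = emb Fb t u := ⟨u, rfl⟩
    simp only [yF, h, dif_pos]
    rw [embLE_injective (Fb t) (card_le_idx Fb t) h.choose_spec]
  have heval1 : ∀ t z (γ : V t → Bool), (chkT t (Sum.inl z)).eval γ =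
      !((chk (idx Fb t) z).eval (Sum.elim (yF t (fun u => γ (Sum.inl u)))
        (fun w => γ (Sum.inr (Sum.inl w))))) := by
    intro t z γ
    simp only [chkT, DT.eval_map, DT.eval_subst]
    congr 2
    funext v
    rcases v with i | w
    · simp only [Sum.elim_inl, back, yF]
      split_ifs with h <;> rfl
    · rfl
  have heval2 : ∀ t z (γ : V t → Bool), (chkT t (Sum.inr z)).eval γ =
      (ctr decX t z).eval (Sum.elim (fun u => γ (Sum.inl u)) (fun v => γ (Sum.inr (Sum.inr v)))) := by
    intro t z γ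
    simp only [chkT, DT.eval_rename]
    congr 1
    funext v
    rcases v with i | w <;> rfl
  -- membership in the complement
  have hmem : ∀ t (F : Fb t → Bool), yF t F ∈ (NotTotal decX (idx Fb t))ᶜ ↔
      ∀ a : Fin (2 ^ t) → Bool, ∃ z, (ctr decX t z).eval (Sum.elim F a) = true := by
    intro t F
    constructor
    · intro hn a
      by_contra hcon
      push Not at hcon
      apply hn
      refine ⟨t, (tt_idx t).symm, card_le_idx Fb t, a, fun z => ?_⟩
      have h1 : (fun v => yF t F (embLE (Fb t) (card_le_idx Fb t) v)) = F := by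
        funext v; exact hyF t F v
      rw [h1]
      simpa using hcon z
    · rintro hall ⟨t', ht', h, a, ha⟩
      rw [tt_idx] at ht'
      subst ht'
      obtain ⟨z, hz⟩ := hall a
      have h2 := ha z
      have h1 : (fun v => yF t' F (embLE (Fb t') h v)) = F := by
        funext v; exact hyF t' F v
      rw [h1, hz] at h2
      exact absurd h2 (by simp)
  have htot : ∀ t (γ : V t → Bool), ∃ z, (chkT t z).eval γ = true := by
    intro t γ
    by_cases hall : ∀ z, (chk (idx Fb t) z).eval (Sum.elim (yF t (fun u => γ (Sum.inl u)))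
        (fun w => γ (Sum.inr (Sum.inl w)))) = true
    · have h1 : yF t (fun u => γ (Sum.inl u)) ∈ (NotTotal decX (idx Fb t))ᶜ :=
        (hLx _ _).2 ⟨_, hall⟩
      obtain ⟨z, hz⟩ := (hmem t (fun u => γ (Sum.inl u))).1 h1 (fun v => γ (Sum.inr (Sum.inr v)))
      exact ⟨Sum.inr z, by rw [heval2]; exact hz⟩
    · push Not at hall
      obtain ⟨z, hz⟩ := hall
      refine ⟨Sum.inl z, ?_⟩
      rw [heval1]
      simpa using hz
  -- bounds
  have hidxle : ∀ t, idx Fb t ≤ 2 ^ (2 * (4 * t + 2)) := by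
    intro t
    apply pair_le_two_pow'
    · have : t < 2 ^ t := Nat.lt_two_pow_self
      calc t + 1 ≤ 2 ^ t := this
        _ ≤ _ := Nat.pow_le_pow_right (by norm_num) (by omega)
    · have h := card_Fb_le t
      have h1 : 1 ≤ 2 ^ (4 * t + 1) := Nat.one_le_two_pow
      rw [show 4 * t + 2 = (4 * t + 1) + 1 by ring, pow_succ]
      omega
  have hbt : Bd (fun t : ℕ => t) (fun t => Nat.log 2 (idx Fb t)) :=
    Bd.log ((Bd.const _ 2).mul (((Bd.const _ 4).mul (Bd.self _)).add_const 2)) hidxle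
  have hbdt : Bd (fun t : ℕ => t) (fun t => d (idx Fb t)) :=
    (hbd.comp (idx Fb)).trans hbt
  let dT : ℕ → ℕ := fun t => d (idx Fb t) + t + 1 + 3 + (t * (t + 1) + 1)
  have hbdT : Bd (fun t : ℕ => t) dT :=
    ((((hbdt.add (Bd.self _)).add_const 1).add_const 3).add
      (((Bd.self _).mul ((Bd.self _).add_const 1)).add_const 1))
  have hcardVeq : ∀ t, Fintype.card (V t) =
      Fintype.card (Fb t) + (Fintype.card (W (idx Fb t)) + 2 ^ t) := by
    intro t
    have e1 : Fintype.card (V t) =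
        Fintype.card (Fb t) + Fintype.card (W (idx Fb t) ⊕ Fin (2 ^ t)) := Fintype.card_sum
    have e2 : Fintype.card (W (idx Fb t) ⊕ Fin (2 ^ t)) =
        Fintype.card (W (idx Fb t)) + Fintype.card (Fin (2 ^ t)) := Fintype.card_sum
    rw [e1, e2, Fintype.card_fin]
  have hcardV : ∀ t, 2 ^ t ≤ Fintype.card (V t) := by
    intro t
    rw [hcardVeq]
    exact (le_card_Fb t).trans (Nat.le_add_right _ _)
  have htlog : ∀ t, t ≤ Nat.log 2 (idx V t) := by
    intro t
    have h1 := (hcardV t).trans (card_le_idx V t)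
    have h2 : idx V t ≠ 0 := by
      have : 1 ≤ 2 ^ t := Nat.one_le_two_pow
      omega
    exact (Nat.le_log_iff_pow_le (by norm_num) h2).2 h1
  have hbdT' : Bd (fun t => Nat.log 2 (idx V t)) dT := hbdT.trans ((Bd.self _).mono htlog)
  obtain ⟨cT, hcT⟩ := hbdT'
  have hkT : ∀ t, dT t ≤ pl (3 ^ cT) (idx V t) := fun t => (hcT t).trans (pow_le_pl _ _)
  have hcardY : ∀ t, Fintype.card (Y t) ≤ 2 ^ dT t := by
    intro t
    simp only [Y, Fintype.card_sum, Fintype.card_fin]
    have h1 := hZ (idx Fb t)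
    have h2 : 2 ^ d (idx Fb t) ≤ 2 ^ (d (idx Fb t) + t) := Nat.pow_le_pow_right (by norm_num) (by omega)
    have h3 : 2 ^ t ≤ 2 ^ (d (idx Fb t) + t) := Nat.pow_le_pow_right (by norm_num) (by omega)
    calc Fintype.card (Z (idx Fb t)) + 2 ^ t ≤ 2 ^ (d (idx Fb t) + t + 1) := by
          rw [pow_succ]; omega
      _ ≤ 2 ^ dT t := Nat.pow_le_pow_right (by norm_num) (by simp only [dT]; omega)
  have hdepth : ∀ t z, (chkT t z).depth ≤ dT t := by
    intro t z
    rcases z with z | z
    · simp only [chkT]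
      refine (DT.depth_map_le _ _).trans ((DT.depth_subst_le _ _ 3 1 (hchk _ z) (fun v => ?_)).trans
        (by simp only [dT]; omega))
      rcases v with i | w
      · simp only [Sum.elim_inl, back]
        split_ifs <;> simp [DT.depth]
      · simp [DT.depth]
    · simp only [chkT]
      exact (DT.depth_rename_le _ _).trans ((depth_ctr decX t z).trans (by simp only [dT]; omega))
  obtain ⟨P, hP⟩ := exists_problem V Y chkT htot dT hcardY hdepth (3 ^ cT) hkT
  refine ⟨P, fun S => ?_⟩
  -- the reduction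
  let T : ℕ → ℕ := fun n => Nat.log 2 n + 1 + pl S.k n
  have hbT : Bd (fun n => Nat.log 2 n) T := ((Bd.self _).add_const 1).add (Bd.pl_self _)
  have hcardV' : ∀ t, Fintype.card (V t) ≤ 2 ^ (4 * t + 1 + d (idx Fb t) + 2) := by
    intro t
    rw [hcardVeq]
    have h1 := card_Fb_le t
    have h2 := hW (idx Fb t)
    have h3 : 2 ^ (4 * t + 1) ≤ 2 ^ (4 * t + 1 + d (idx Fb t)) :=
      Nat.pow_le_pow_right (by norm_num) (by omega)
    have h4 : 2 ^ d (idx Fb t) ≤ 2 ^ (4 * t + 1 + d (idx Fb t)) :=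
      Nat.pow_le_pow_right (by norm_num) (by omega)
    have h5 : 2 ^ t ≤ 2 ^ (4 * t + 1 + d (idx Fb t)) :=
      Nat.pow_le_pow_right (by norm_num) (by omega)
    rw [pow_add 2 _ 2]
    omega
  have hidxV : ∀ t, idx V t ≤ 2 ^ (2 * (4 * t + 1 + d (idx Fb t) + 3)) := by
    intro t
    apply pair_le_two_pow'
    · have : t < 2 ^ t := Nat.lt_two_pow_self
      calc t + 1 ≤ 2 ^ t := this
        _ ≤ _ := Nat.pow_le_pow_right (by norm_num) (by omega)
    · have h := hcardV' t
      have h1 : 1 ≤ 2 ^ (4 * t + 1 + d (idx Fb t) + 2) := Nat.one_le_two_pow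
      rw [show 4 * t + 1 + d (idx Fb t) + 3 = (4 * t + 1 + d (idx Fb t) + 2) + 1 by ring, pow_succ]
      omega
  have hbe : Bd (fun t : ℕ => t) (fun t => 2 * (4 * t + 1 + d (idx Fb t) + 3)) :=
    (Bd.const _ 2).mul (((((Bd.const _ 4).mul (Bd.self _)).add_const 1).add hbdt).add_const 3)
  have hbm : Bd (fun n => Nat.log 2 n) (fun n => 2 * (4 * T n + 1 + d (idx Fb (T n)) + 3) + 1) :=
    ((hbe.comp T).trans hbT).add_const 1
  obtain ⟨c, hc⟩ := hbm.exists_pl
  refine ⟨c, fun n => ?_⟩
  have hnT : n ≤ 2 ^ T n := by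
    refine (lt_two_pow_log n).le.trans (Nat.pow_le_pow_right (by norm_num) ?_)
    simp only [T]; omega
  have hsolT : S.sol n ≤ 2 ^ T n := by
    refine (S.sol_le n).trans (Nat.pow_le_pow_right (by norm_num) ?_)
    simp only [T]; omega
  have hdepT : ∀ z, (S.ver n z).depth ≤ T n := by
    intro z
    refine (S.depth_le n z).trans ?_
    simp only [T]; omega
  set t := T n with htdef
  obtain ⟨zi, hzi⟩ := hP t
  obtain ⟨s0, -⟩ := S.total n (fun _ => false)
  let trees : Fin (2 ^ t) → DT (Fin (2 ^ t)) Bool := fun z =>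
    if h : z.1 < S.sol n then (S.ver n ⟨z.1, h⟩).rename (Fin.castLE hnT) else DT.leaf false
  have htrees : ∀ z, (trees z).depth ≤ t := by
    intro z
    simp only [trees]
    split_ifs with h
    · exact (DT.depth_rename_le _ _).trans (hdepT _)
    · simp [DT.depth]
  have hpos : 0 < 2 ^ t := Nat.pow_pos (by norm_num)
  let F : Fb t → Bool := code (encX t) encB ⟨0, hpos⟩ false trees
  have hF : ∀ z (a : Fin (2 ^ t) → Bool), (ctr decX t z).eval (Sum.elim F a) = (trees z).eval a :=
    fun z a => eval_ctree_root (d := t) (encX t) (decX t) (hX t) encB decB decB_encB ⟨0, hpos⟩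
      false trees z a (htrees z)
  have hFmem : yF t F ∈ (NotTotal decX (idx Fb t))ᶜ := by
    rw [hmem]
    intro a
    obtain ⟨z, hz⟩ := S.total n (fun v => a (Fin.castLE hnT v))
    refine ⟨Fin.castLE hsolT z, ?_⟩
    rw [hF]
    simp only [trees, Fin.val_castLE, z.2, dif_pos, DT.eval_rename]
    exact hz
  obtain ⟨w, hw⟩ := (hLx _ _).1 hFmem
  let f0 : V t → Fin n ⊕ Bool := fun v =>
    match v with
    | Sum.inl u => Sum.inr (F u)
    | Sum.inr (Sum.inl w') => Sum.inr (w w')
    | Sum.inr (Sum.inr v) => if h : v.1 < n then Sum.inl ⟨v.1, h⟩ else Sum.inr false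
  let g0 : Y t → Fin (S.sol n) := fun y =>
    match y with
    | Sum.inl _ => s0
    | Sum.inr v => if h : v.1 < S.sol n then ⟨v.1, h⟩ else s0
  let f1 : Fin (idx V t) → Fin n ⊕ Bool := fun i =>
    if h : ∃ v, emb V t v = i then f0 h.choose else Sum.inr false
  refine ⟨idx V t, (hidxV t).trans (Nat.pow_le_pow_right (by norm_num) ((Nat.le_succ _).trans (hc n))),
    f1, fun z => g0 (zi z), ?_⟩
  intro x z hz
  have hz' : (P.ver (idx V t) z).eval _ = true := hz
  rw [hzi] at hz'
  have hγ : ∀ v, f1 (emb V t v) = f0 v := by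
    intro v
    have h : ∃ v', emb V t v' = emb V t v := ⟨v, rfl⟩
    simp only [f1]
    rw [dif_pos h]
    rw [embLE_injective (V t) (card_le_idx V t) h.choose_spec]
  simp only [hγ] at hz'
  show S.IsSol n x (g0 (zi z))
  rcases hzz : zi z with z' | v
  · exfalso
    rw [hzz, heval1] at hz'
    have h1 := hw z'
    rw [Bool.not_eq_true'] at hz'
    have h2 : (fun u => Sum.elim x id (f0 (Sum.inl u))) = F := rfl
    have h3 : (fun w' => Sum.elim x id (f0 (Sum.inr (Sum.inl w')))) = w := rfl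
    simp only [h2, h3] at hz'
    rw [h1] at hz'
    exact absurd hz' (by simp)
  · rw [hzz, heval2] at hz'
    have h2 : (fun u => Sum.elim x id (f0 (Sum.inl u))) = F := rfl
    simp only [h2] at hz'
    rw [hF] at hz'
    simp only [trees] at hz'
    split_ifs at hz' with hv
    · have hg : g0 (Sum.inr v) = ⟨v.1, hv⟩ := by
        simp only [g0]
        rw [dif_pos hv]
      rw [hg]
      simp only [Problem.IsSol]
      rw [DT.eval_rename] at hz'
      rw [← hz']
      congr 1
      funext i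
      simp only [f0, Fin.val_castLE, i.2, dif_pos]
      rfl
    · exact absurd hz' (by simp [DT.eval])

end Pool.Agent.H88.BB
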