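import Pool.Agent.H88.BB.Collapse
import Pool.Agent.H88.BB.Universal

/-!
# Black-box TFNP has a complete problem iff nonuniform NP is closed under complement
-/

namespace Pool.Agent.H88.BB

theorem main : List.TFAE [
    ∃ T : Problem, ∀ S : Problem, Projects S T,
    ∃ T : Problem, ∀ S : Problem, Reduces S T,
    ∃ T : Problem, ∀ S : Problem, TuringReduces S T,
    ∃ T : ℕ → Problem, ∀ S : Problem, ∃ j, TuringReduces S (T j),
    ∀ L : Language, InNP L → InNP (fun n => (L n)ᶜ)] := by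
  tfae_have 1 → 2 := fun ⟨T, hT⟩ => ⟨T, fun S => (hT S).reduces⟩
  tfae_have 2 → 3 := fun ⟨T, hT⟩ => ⟨T, fun S => (hT S).turing⟩
  tfae_have 3 → 4 := fun ⟨T, hT⟩ => ⟨fun _ => T, fun S => ⟨0, hT S⟩⟩
  tfae_have 4 → 5 := fun ⟨T, hT⟩ L hL => jointly_complete_imp T hT L hL
  tfae_have 5 → 1 := exists_complete
  tfae_finish

end Pool.Agent.H88.BB
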