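import Pool.Agent.H88.BB.Tree

/-!
# From shallow decision trees to CNFs, with universally quantified variables projected away
-/

namespace Pool.Agent.H88.BB

open Classical

namespace DT

variable {U A : Type}

/-- The CNF in the variables `U` saying that the tree accepts for all assignments of `A`
extending the partial assignment. -/
noncomputable def proj : DT (U ⊕ A) Bool → (A → Option Bool) → CNF U
  | leaf true, _ => ∅
  | leaf false, _ => {∅}
  | node (Sum.inl v) next, σ =>
      ((next false).proj σ).image (insert (v, true)) ∪ ((next true).proj σ).image (insert (v, false))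
  | node (Sum.inr a) next, σ =>
      match σ a with
      | some b => (next b).proj σ
      | none => (next false).proj (Function.update σ a (some false)) ∪
          (next true).proj (Function.update σ a (some true))

/-- `x` extends the partial assignment `σ`. -/
def Ext (σ : A → Option Bool) (x : A → Bool) : Prop := ∀ a b, σ a = some b → x a = b

theorem exists_ext (σ : A → Option Bool) : ∃ x, Ext σ x :=
  ⟨fun a => (σ a).getD false, fun a b h => by simp [h]⟩

theorem ext_update {σ : A → Option Bool} {a : A} (b : Bool) (x : A → Bool) (h : σ a = none) :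
    Ext (Function.update σ a (some b)) x ↔ Ext σ x ∧ x a = b := by
  constructor
  · intro hx
    refine ⟨fun a' b' h' => ?_, hx a b (by simp)⟩
    have hne : a' ≠ a := by rintro rfl; rw [h] at h'; exact absurd h' (by simp)
    exact hx a' b' (by simp [Function.update_of_ne hne, h'])
  · rintro ⟨hx, hb⟩ a' b' h'
    by_cases ha : a' = a
    · subst ha
      simp at h'
      rw [hb, h']
    · rw [Function.update_of_ne ha] at h'
      exact hx a' b' h'

theorem sat_union {V : Type} (Φ Ψ : CNF V) (x : V → Bool) :
    Sat (Φ ∪ Ψ) x ↔ Sat Φ x ∧ Sat Ψ x := by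
  unfold Sat
  constructor
  · intro h
    exact ⟨fun C hC => h C (Finset.mem_union_left _ hC), fun C hC => h C (Finset.mem_union_right _ hC)⟩
  · rintro ⟨h1, h2⟩ C hC
    rcases Finset.mem_union.1 hC with hC | hC
    · exact h1 C hC
    · exact h2 C hC

theorem sat_insert {V : Type} (Φ : CNF V) (v : V) (b : Bool) (x : V → Bool) :
    Sat (Φ.image (insert (v, b))) x ↔ (x v = b ∨ Sat Φ x) := by
  unfold Sat
  constructor
  · intro h
    by_cases hv : x v = b
    · exact Or.inl hv
    · right
      intro C hC
      obtain ⟨l, hl, hx⟩ := h _ (Finset.mem_image_of_mem _ hC)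
      rcases Finset.mem_insert.1 hl with rfl | hl
      · exact absurd hx hv
      · exact ⟨l, hl, hx⟩
  · rintro h C' hC'
    obtain ⟨C, hC, rfl⟩ := Finset.mem_image.1 hC'
    rcases h with h | h
    · exact ⟨(v, b), Finset.mem_insert_self _ _, h⟩
    · obtain ⟨l, hl, hx⟩ := h C hC
      exact ⟨l, Finset.mem_insert_of_mem hl, hx⟩

theorem sat_proj (t : DT (U ⊕ A) Bool) : ∀ (σ : A → Option Bool) (u : U → Bool),
    Sat (t.proj σ) u ↔ ∀ x, Ext σ x → t.eval (Sum.elim u x) = true := by
  induction t with
  | leaf b =>
    intro σ u
    obtain ⟨x, hx⟩ := exists_ext σ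
    cases b with
    | true => simp [proj, Sat, eval]
    | false =>
      simp only [proj, Sat, eval]
      constructor
      · intro h
        obtain ⟨l, hl, -⟩ := h ∅ (Finset.mem_singleton_self _)
        exact absurd hl (Finset.notMem_empty _)
      · intro h
        exact absurd (h x hx) (by simp)
  | node v next ih =>
    intro σ u
    rcases v with v | a
    · simp only [proj, sat_union, sat_insert, ih, eval, Sum.elim_inl]
      cases hv : u v with
      | false => simp
      | true => simp
    · simp only [proj, eval, Sum.elim_inr]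
      cases ha : σ a with
      | some b =>
        simp only [ih]
        constructor
        · intro h x hx
          rw [hx a b ha]; exact h x hx
        · intro h x hx
          have := h x hx
          rw [hx a b ha] at this; exact this
      | none =>
        simp only [sat_union, ih, ext_update _ _ ha]
        constructor
        · rintro ⟨h1, h2⟩ x hx
          cases hxa : x a with
          | false => exact h1 x ⟨hx, hxa⟩
          | true => exact h2 x ⟨hx, hxa⟩
        · intro h
          refine ⟨fun x hx => ?_, fun x hx => ?_⟩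
          · have := h x hx.1
            rw [hx.2] at this; exact this
          · have := h x hx.1
            rw [hx.2] at this; exact this

theorem card_proj (t : DT (U ⊕ A) Bool) : ∀ (σ : A → Option Bool) (d : ℕ), t.depth ≤ d →
    (t.proj σ).card ≤ 2 ^ d := by
  induction t with
  | leaf b =>
    intro σ d _
    have : 1 ≤ 2 ^ d := Nat.one_le_two_pow
    cases b
    · simpa [proj] using this
    · simp [proj]
  | node v next ih =>
    intro σ d hd
    have h0 := depth_next v next false
    have h1 := depth_next v next true
    obtain ⟨d, rfl⟩ : ∃ d', d = d' + 1 := ⟨d - 1, by omega⟩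
    have e : (2 : ℕ) ^ (d + 1) = 2 ^ d + 2 ^ d := by rw [pow_succ]; ring
    rcases v with v | a
    · simp only [proj]
      rw [e]
      refine (Finset.card_union_le _ _).trans (Nat.add_le_add ?_ ?_)
      · exact Finset.card_image_le.trans (ih false σ d (by omega))
      · exact Finset.card_image_le.trans (ih true σ d (by omega))
    · simp only [proj]
      cases ha : σ a with
      | some b =>
        have hb := depth_next (Sum.inr a) next b
        exact (ih b σ d (by omega)).trans (Nat.pow_le_pow_right (by norm_num) (by omega))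
      | none =>
        simp only
        rw [e]
        exact (Finset.card_union_le _ _).trans
          (Nat.add_le_add (ih false _ d (by omega)) (ih true _ d (by omega)))

end DT

theorem sat_biUnion {V Z : Type} [DecidableEq (Finset (V × Bool))] (s : Finset Z) (Φ : Z → CNF V) (x : V → Bool) :
    Sat (s.biUnion Φ) x ↔ ∀ z ∈ s, Sat (Φ z) x := by
  unfold Sat
  constructor
  · intro h z hz C hC
    exact h C (Finset.mem_biUnion.2 ⟨z, hz, hC⟩)
  · intro h C hC
    obtain ⟨z, hz, hC⟩ := Finset.mem_biUnion.1 hC
    exact h z hz C hC

/-- Languages verified by shallow decision trees, possibly with universally quantified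
variables `A`, are in nonuniform NP. -/
theorem InNP_of (L : Language) (W Z A : ℕ → Type) [∀ n, Fintype (W n)] [∀ n, Fintype (Z n)]
    (chk : ∀ n, Z n → DT ((Fin n ⊕ W n) ⊕ A n) Bool) (d : ℕ → ℕ)
    (hbd : Bd (fun n => Nat.log 2 n) d)
    (hW : ∀ n, Fintype.card (W n) ≤ 2 ^ d n) (hZ : ∀ n, Fintype.card (Z n) ≤ 2 ^ d n)
    (hd : ∀ n z, (chk n z).depth ≤ d n)
    (hL : ∀ n x, x ∈ L n ↔ ∃ w : W n → Bool, ∀ z, ∀ a : A n → Bool,
      (chk n z).eval (Sum.elim (Sum.elim x w) a) = true) :
    InNP L := by
  obtain ⟨c, hc⟩ := (hbd.add hbd).exists_pl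
  refine ⟨c, fun n => ?_⟩
  have hc1 : d n ≤ pl c n := (Nat.le_add_right _ _).trans (hc n)
  let e : W n ≃ Fin (Fintype.card (W n)) := Fintype.equivFin (W n)
  let r : (Fin n ⊕ W n) ⊕ A n → (Fin n ⊕ Fin (Fintype.card (W n))) ⊕ A n :=
    Sum.map (Sum.map id e) id
  let Φ : CNF (Fin n ⊕ Fin (Fintype.card (W n))) :=
    Finset.univ.biUnion fun z => ((chk n z).rename r).proj (fun _ => none)
  refine ⟨Fintype.card (W n), (hW n).trans (Nat.pow_le_pow_right (by norm_num) hc1), Φ, ?_, ?_⟩
  · calc Φ.card ≤ ∑ z : Z n, 2 ^ d n := by
          refine Finset.card_biUnion_le.trans (Finset.sum_le_sum fun z _ => ?_)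
          exact DT.card_proj _ _ _ ((DT.depth_rename_le _ _).trans (hd n z))
      _ = Fintype.card (Z n) * 2 ^ d n := by simp
      _ ≤ 2 ^ d n * 2 ^ d n := Nat.mul_le_mul_right _ (hZ n)
      _ = 2 ^ (d n + d n) := by rw [pow_add]
      _ ≤ 2 ^ pl c n := Nat.pow_le_pow_right (by norm_num) (hc n)
  · intro x
    have key : ∀ w : Fin (Fintype.card (W n)) → Bool, Sat Φ (Sum.elim x w) ↔
        ∀ z, ∀ a : A n → Bool, (chk n z).eval (Sum.elim (Sum.elim x (w ∘ e)) a) = true := by
      intro w
      simp only [Φ, sat_biUnion, Finset.mem_univ, true_imp_iff, DT.sat_proj, DT.eval_rename]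
      refine forall_congr' fun z => forall_congr' fun a => ?_
      have h1 : DT.Ext (fun _ => none) a := fun _ _ h => absurd h (by simp)
      have h2 : (fun v => Sum.elim (Sum.elim x w) a (r v)) =
          Sum.elim (Sum.elim x (w ∘ e)) a := by
        funext v
        rcases v with (i | v) | v <;> rfl
      rw [h2]
      exact ⟨fun h => h h1, fun h _ => h⟩
    rw [hL]
    constructor
    · rintro ⟨w, hw⟩
      refine ⟨w ∘ e.symm, (key _).2 ?_⟩
      have : (w ∘ e.symm) ∘ e = w := by funext v; simp
      rw [this]; exact hw
    · rintro ⟨w, hw⟩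
      exact ⟨w ∘ e, (key w).1 hw⟩

end Pool.Agent.H88.BB
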