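import Pool.Agent.H88.BB.Basic

/-!
# Operations on decision trees
-/

namespace Pool.Agent.H88.BB

namespace DT

variable {V W O P : Type}

/-- Sequential composition. -/
def bind : DT V O → (O → DT V P) → DT V P
  | leaf o, k => k o
  | node v next, k => node v fun b => (next b).bind k

theorem eval_bind (t : DT V O) (k : O → DT V P) (x : V → Bool) :
    (t.bind k).eval x = (k (t.eval x)).eval x := by
  induction t with
  | leaf o => rfl
  | node v next ih => exact ih (x v)

theorem depth_next (v : V) (next : Bool → DT V O) (b : Bool) :
    (next b).depth + 1 ≤ (node v next).depth := by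
  have : (next b).depth ≤ max (next false).depth (next true).depth := by
    cases b
    · exact le_max_left _ _
    · exact le_max_right _ _
  simp only [depth]; omega

theorem depth_node_le (v : V) (next : Bool → DT V O) (d : ℕ) (h : ∀ b, (next b).depth ≤ d) :
    (node v next).depth ≤ d + 1 := by
  have h0 := h false
  have h1 := h true
  simp only [depth]; omega

theorem depth_bind_le (t : DT V O) (k : O → DT V P) (a b : ℕ) (ha : t.depth ≤ a)
    (hb : ∀ o, (k o).depth ≤ b) : (t.bind k).depth ≤ a + b := by
  induction t generalizing a with
  | leaf o => exact (hb o).trans (Nat.le_add_left _ _)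
  | node v next ih =>
    have h0 := depth_next v next
    obtain ⟨a, rfl⟩ : ∃ a', a = a' + 1 := ⟨a - 1, by have := h0 true; omega⟩
    have := depth_node_le v (fun e => (next e).bind k) (a + b)
      (fun e => ih e a (by have := h0 e; omega))
    simp only [bind]
    omega

/-- Apply a function to the output. -/
def map (f : O → P) (t : DT V O) : DT V P := t.bind fun o => leaf (f o)

theorem eval_map (f : O → P) (t : DT V O) (x : V → Bool) : (t.map f).eval x = f (t.eval x) := by
  unfold map; rw [eval_bind]; rfl

theorem depth_map_le (f : O → P) (t : DT V O) : (t.map f).depth ≤ t.depth :=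
  depth_bind_le t _ t.depth 0 (le_refl _) (fun _ => le_refl _)

/-- Replace each query by a decision tree. -/
def subst (f : V → DT W Bool) : DT V O → DT W O
  | leaf o => leaf o
  | node v next => (f v).bind fun b => (next b).subst f

theorem eval_subst (f : V → DT W Bool) (t : DT V O) (y : W → Bool) :
    (t.subst f).eval y = t.eval (fun v => (f v).eval y) := by
  induction t with
  | leaf o => rfl
  | node v next ih =>
    simp only [subst, eval_bind, eval]
    exact ih _

theorem depth_subst_le (f : V → DT W Bool) (t : DT V O) (a d : ℕ) (ha : t.depth ≤ a)
    (hd : ∀ v, (f v).depth ≤ d) : (t.subst f).depth ≤ a * d := by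
  induction t generalizing a with
  | leaf o => simp [subst, depth]
  | node v next ih =>
    have h0 := depth_next v next
    obtain ⟨a, rfl⟩ : ∃ a', a = a' + 1 := ⟨a - 1, by have := h0 true; omega⟩
    have := depth_bind_le (f v) (fun b => (next b).subst f) d (a * d) (hd v)
      (fun e => ih e a (by have := h0 e; omega))
    simp only [subst]
    refine this.trans ?_
    rw [Nat.succ_mul, Nat.add_comm]

/-- Rename the variables. -/
def rename (f : V → W) (t : DT V O) : DT W O := t.subst fun v => node (f v) leaf

theorem eval_rename (f : V → W) (t : DT V O) (y : W → Bool) :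
    (t.rename f).eval y = t.eval (fun v => y (f v)) := by
  unfold rename; rw [eval_subst]; rfl

theorem depth_rename_le (f : V → W) (t : DT V O) : (t.rename f).depth ≤ t.depth := by
  have := depth_subst_le (fun v => node (f v) leaf) t t.depth 1 (le_refl _)
    (fun v => by simp [depth])
  simpa [rename] using this

/-- Read several variables. -/
def readVec : (L : ℕ) → (Fin L → V) → DT V (Fin L → Bool)
  | 0, _ => leaf Fin.elim0
  | L + 1, js => node (js 0) fun b => (readVec L (fun j => js j.succ)).map (fun w => Fin.cons b w)

theorem eval_readVec : ∀ (L : ℕ) (js : Fin L → V) (x : V → Bool),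
    (readVec L js).eval x = fun j => x (js j) := by
  intro L
  induction L with
  | zero => intro js x; funext j; exact j.elim0
  | succ L ih =>
    intro js x
    simp only [readVec, eval, eval_map, ih]
    funext j
    refine Fin.cases ?_ (fun j => ?_) j
    · rfl
    · simp

theorem depth_readVec : ∀ (L : ℕ) (js : Fin L → V), (readVec L js).depth ≤ L := by
  intro L
  induction L with
  | zero => intro js; exact le_refl _
  | succ L ih =>
    intro js
    simp only [readVec]
    exact depth_node_le _ _ L (fun b => (depth_map_le _ _).trans (ih _))

end DT

/-- A finite type embeds into bit strings, with a left inverse. -/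
theorem exists_code (X : Type) [Fintype X] [Nonempty X] (L : ℕ) (h : Fintype.card X ≤ 2 ^ L) :
    ∃ (enc : X → (Fin L → Bool)) (dec : (Fin L → Bool) → X), ∀ x, dec (enc x) = x := by
  have h2 : Fintype.card X ≤ Fintype.card (Fin L → Bool) := by simpa using h
  obtain ⟨e⟩ := Function.Embedding.nonempty_of_card_le h2
  exact ⟨e, Function.invFun e, fun x => Function.leftInverse_invFun e.injective x⟩

end Pool.Agent.H88.BB
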